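import Mathlib.LinearAlgebra.Lagrange
import Mathlib.NumberTheory.NumberField.Basic
import Mathlib.Combinatorics.Pigeonhole
import Mathlib.Data.Rat.Star
import Mathlib.Tactic.Polynomial.Basic
import Pool.Agent.MP_a31471_co.sx.Num8
import Pool.Agent.MP_a31471_co.sx.Colour

-- ======== part 0: formerly Pool.Agent.MP_a31471_co.sx.Num
section MrgPart0

/-!
The choice of the parameters.
-/

set_option autoImplicit false

namespace Pool.Agent.MP_a31471_co.sx

namespace Num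

theorem p1_le (k H D : ℕ) (hk : 16 ≤ k) (hH : 2 * H ≤ k) :
    (k * (k * ((2 * H).factorial * (2 * k ^ 2 + 1))) + 1) ^ (2 * D)
      ≤ k ^ ((2 * H + 5) * (2 * D)) := by
  rw [pow_mul k]
  refine Nat.pow_le_pow_left ?_ _
  have h1 : (2 * H).factorial ≤ k ^ (2 * H) :=
    (Nat.factorial_le_pow _).trans (Nat.pow_le_pow_left hH _)
  have h2 : 1 ≤ k ^ (2 * H) := Nat.one_le_pow _ _ (by omega)
  have h3 : k * (k * (2 * k ^ 2 + 1)) + 1 ≤ k ^ 5 := by
    have a1 : 16 * k ^ 4 ≤ k ^ 5 := by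
      rw [pow_succ' k 4]
      exact Nat.mul_le_mul_right _ hk
    have a2 : k ^ 2 ≤ k ^ 4 := Nat.pow_le_pow_right (by omega) (by omega)
    have a3 : 1 ≤ k ^ 4 := Nat.one_le_pow _ _ (by omega)
    have a4 : k * (k * (2 * k ^ 2 + 1)) = 2 * k ^ 4 + k ^ 2 := by ring
    omega
  calc k * (k * ((2 * H).factorial * (2 * k ^ 2 + 1))) + 1
      = (2 * H).factorial * (k * (k * (2 * k ^ 2 + 1))) + 1 := by ring
    _ ≤ k ^ (2 * H) * (k * (k * (2 * k ^ 2 + 1))) + k ^ (2 * H) * 1 :=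
      Nat.add_le_add (Nat.mul_le_mul_right _ h1) (by omega)
    _ = k ^ (2 * H) * (k * (k * (2 * k ^ 2 + 1)) + 1) := by ring
    _ ≤ k ^ (2 * H) * k ^ 5 := Nat.mul_le_mul_left _ h3
    _ = k ^ (2 * H + 5) := by ring

theorem p2_le (k h D : ℕ) (hk : 16 ≤ k) (hh : 2 * h ≤ k) :
    2 * h * ((2 * h + 1) * (k * (5 * (2 * k ^ 2 + 1)) + 1) ^ 2) ^ D ≤ k ^ (10 * D + 1) := by
  have h1 : k * (5 * (2 * k ^ 2 + 1)) + 1 ≤ k ^ 4 := by
    have a1 : 16 * k ^ 3 ≤ k ^ 4 := by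
      rw [pow_succ' k 3]
      exact Nat.mul_le_mul_right _ hk
    have a2 : k ^ 1 ≤ k ^ 3 := Nat.pow_le_pow_right (by omega) (by omega)
    have a4 : k * (5 * (2 * k ^ 2 + 1)) = 10 * k ^ 3 + 5 * k ^ 1 := by ring
    have a5 : k ^ 1 = k := pow_one k
    omega
  have h2 : 2 * h + 1 ≤ k ^ 2 := by nlinarith
  have h3 : (2 * h + 1) * (k * (5 * (2 * k ^ 2 + 1)) + 1) ^ 2 ≤ k ^ 10 :=
    calc _ ≤ k ^ 2 * (k ^ 4) ^ 2 := Nat.mul_le_mul h2 (Nat.pow_le_pow_left h1 2)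
      _ = k ^ 10 := by ring
  calc _ ≤ k * (k ^ 10) ^ D := Nat.mul_le_mul hh (Nat.pow_le_pow_left h3 D)
    _ = k ^ (10 * D + 1) := by rw [← pow_mul]; ring

theorem primes (g D : ℕ) : ∃ q : Fin D → ℕ,
    (∀ j, (q j).Prime ∧ 2 ^ g < q j ∧ q j ≤ 2 ^ (g + D)) ∧ Function.Injective q := by
  have h : ∀ j : ℕ, ∃ p, p.Prime ∧ 2 ^ (g + j) < p ∧ p ≤ 2 * 2 ^ (g + j) := fun j =>
    Nat.exists_prime_lt_and_le_two_mul _ (by positivity)
  choose p h1 h2 h3 using h
  have h4 : ∀ i j, i < j → p i < p j := by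
    intro i j e
    refine lt_of_le_of_lt ((h3 i).trans ?_) (h2 j)
    rw [← pow_succ']
    exact Nat.pow_le_pow_right (by omega) (by omega)
  refine ⟨fun j => p j, fun j => ⟨h1 j, ?_, ?_⟩, ?_⟩
  · exact lt_of_le_of_lt (Nat.pow_le_pow_right (by omega) (by omega)) (h2 j)
  · refine (h3 j).trans ?_
    rw [← pow_succ']
    exact Nat.pow_le_pow_right (by omega) (by have := j.2; omega)
  · intro i j e
    exact Fin.ext ((StrictMono.injective (f := p) fun a b e => h4 a b e) e)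

/-- a power of `k` is beaten by an exponential -/
theorem pow_exp {k : ℕ} (hk : 16 ≤ k) (n : ℕ) {x : ℝ} (h : (n + 1) * Real.log k ≤ x) :
    (k : ℝ) ^ n * Real.exp (-x) ≤ 1 / 16 := by
  have hk' : (16 : ℝ) ≤ k := by exact_mod_cast hk
  have h0 : (0 : ℝ) < k := by linarith
  have h1 : (k : ℝ) ^ (n + 1) ≤ Real.exp x := by
    rw [← Real.exp_log (pow_pos h0 (n + 1)), Real.log_pow]
    exact Real.exp_le_exp.2 (by exact_mod_cast h)
  have h2 : 16 * (k : ℝ) ^ n ≤ (k : ℝ) ^ (n + 1) := by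
    rw [pow_succ']
    exact mul_le_mul_of_nonneg_right hk' (pow_pos h0 n).le
  rw [Real.exp_neg, ← div_eq_mul_inv, div_le_iff₀ (Real.exp_pos x)]
  linarith

theorem stage_one {k D H H1 : ℕ} {η : ℝ} (hk : 16 ≤ k) (hD : 1 ≤ D) (hH : 1 ≤ H) (hH1 : H ≤ H1)
    (hk1 : 2 * H1 ≤ k) (a1 : 7 * D * Real.log k ≤ η ^ 2 * H)
    (a2 : 8 * H * D * Real.log k ≤ η ^ 2 * H1) :
    4 * (k : ℝ) * ((((k * (k * ((2 * H).factorial * (2 * k ^ 2 + 1))) + 1) ^ (2 * D) : ℕ) : ℝ)
          * (2 * Real.exp (-(2 * η ^ 2 * H1)))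
        + k * ((2 * H1 * ((2 * H1 + 1) * (k * (5 * (2 * k ^ 2 + 1)) + 1) ^ 2) ^ D : ℕ) : ℝ)
          * (2 * Real.exp (-(2 * η ^ 2 * H)))) ≤ 1 := by
  have hl : 0 ≤ Real.log k := Real.log_natCast_nonneg k
  have b1 : (((k * (k * ((2 * H).factorial * (2 * k ^ 2 + 1))) + 1) ^ (2 * D) : ℕ) : ℝ)
      ≤ (k : ℝ) ^ ((2 * H + 5) * (2 * D)) := by
    exact_mod_cast p1_le k H D hk (by omega)
  have b2 : ((2 * H1 * ((2 * H1 + 1) * (k * (5 * (2 * k ^ 2 + 1)) + 1) ^ 2) ^ D : ℕ) : ℝ)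
      ≤ (k : ℝ) ^ (10 * D + 1) := by
    exact_mod_cast p2_le k H1 D hk hk1
  have c1 := pow_exp hk ((2 * H + 5) * (2 * D) + 1) (x := 2 * η ^ 2 * H1) (by
    have e : (2 * H + 5) * (2 * D) + 1 + 1 ≤ 16 * H * D := by nlinarith [Nat.mul_le_mul hH hD]
    have e' : ((((2 * H + 5) * (2 * D) + 1 : ℕ) : ℝ) + 1) ≤ 16 * H * D := by exact_mod_cast e
    nlinarith [mul_le_mul_of_nonneg_right e' hl])
  have c2 := pow_exp hk (10 * D + 1 + 2) (x := 2 * η ^ 2 * H) (by
    have e : 10 * D + 1 + 2 + 1 ≤ 14 * D := by omega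
    have e' : (((10 * D + 1 + 2 : ℕ) : ℝ) + 1) ≤ 14 * D := by exact_mod_cast e
    nlinarith [mul_le_mul_of_nonneg_right e' hl])
  rw [pow_succ] at c1
  rw [pow_add _ _ 2] at c2
  have h0 : (0 : ℝ) ≤ k := Nat.cast_nonneg k
  generalize (((k * (k * ((2 * H).factorial * (2 * k ^ 2 + 1))) + 1) ^ (2 * D) : ℕ) : ℝ) = X at *
  generalize ((2 * H1 * ((2 * H1 + 1) * (k * (5 * (2 * k ^ 2 + 1)) + 1) ^ 2) ^ D : ℕ) : ℝ) = Y at *
  have d1 := mul_le_mul_of_nonneg_right b1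
    (mul_nonneg h0 (Real.exp_pos (-(2 * η ^ 2 * H1))).le)
  have d2 := mul_le_mul_of_nonneg_right b2
    (mul_nonneg (pow_nonneg h0 2) (Real.exp_pos (-(2 * η ^ 2 * H))).le)
  nlinarith

theorem stage_two {k D H r m1 G : ℕ} (hk : 16 ≤ k) (hH : 2 * H ≤ k) (hD : 4 * D + 1 ≤ k)
    (hr : 2 ≤ r) (a1 : 2 * D * G * Real.log 2 + 2 * Real.log k ≤ m1 * Real.log r)
    (a2 : (10 * D + 7) * Real.log k + 6 * G ≤ ((k / 2 : ℕ) : ℝ) / r) :
    8 * (k : ℝ) * (((((2 ^ G) ^ D) ^ 2 : ℕ) : ℝ) * (1 / (r : ℝ)) ^ m1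
        + k * (((2 * H * ((2 * H + 1) * (k * (5 * (2 * k ^ 2 + 1)) + 1) ^ 2) ^ D)
            * (4 * D * (2 ^ G) ^ 2 + 1) ^ 3 : ℕ) : ℝ) * (1 - 1 / (r : ℝ)) ^ (k / 2)) ≤ 1 := by
  have hr' : (2 : ℝ) ≤ r := by exact_mod_cast hr
  have h0 : (0 : ℝ) ≤ k := Nat.cast_nonneg k
  have b1 : (k : ℝ) * (((((2 ^ G) ^ D) ^ 2 : ℕ) : ℝ) * (1 / (r : ℝ)) ^ m1) ≤ 1 / 16 := by
    have e1 : ((((2 ^ G) ^ D) ^ 2 : ℕ) : ℝ) = Real.exp (2 * D * G * Real.log 2) := by
      rw [← pow_mul, ← pow_mul, show (2 : ℝ) * D * G = ((G * (D * 2) : ℕ) : ℝ) by push_cast; ring,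
        ← Real.log_pow, Real.exp_log (by positivity)]
      push_cast
      rfl
    have e2 : (1 / (r : ℝ)) ^ m1 = Real.exp (-(m1 * Real.log r)) := by
      rw [Real.exp_neg, ← Real.log_pow, Real.exp_log (by positivity), one_div, inv_pow]
    have e3 := pow_exp hk 1 (x := m1 * Real.log r - 2 * D * G * Real.log 2) (by
      push_cast
      linarith)
    rw [pow_one, neg_sub, sub_eq_add_neg] at e3
    rwa [e1, e2, ← Real.exp_add]
  have b2 : (2 * H * ((2 * H + 1) * (k * (5 * (2 * k ^ 2 + 1)) + 1) ^ 2) ^ D)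
      * (4 * D * (2 ^ G) ^ 2 + 1) ^ 3 ≤ k ^ (10 * D + 4) * 2 ^ (6 * G) := by
    have e1 : 4 * D * (2 ^ G) ^ 2 + 1 ≤ k * (2 ^ G) ^ 2 := by
      have : 1 ≤ (2 ^ G) ^ 2 := Nat.one_le_pow _ _ (by positivity)
      nlinarith
    calc _ ≤ k ^ (10 * D + 1) * (k * (2 ^ G) ^ 2) ^ 3 :=
        Nat.mul_le_mul (p2_le k H D hk hH) (Nat.pow_le_pow_left e1 3)
      _ = _ := by ring
  have b3 : (((2 * H * ((2 * H + 1) * (k * (5 * (2 * k ^ 2 + 1)) + 1) ^ 2) ^ D)
      * (4 * D * (2 ^ G) ^ 2 + 1) ^ 3 : ℕ) : ℝ)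
      ≤ (k : ℝ) ^ (10 * D + 4) * Real.exp (6 * G) := by
    refine le_trans (Nat.cast_le.2 b2) ?_
    push_cast
    refine mul_le_mul_of_nonneg_left ?_ (by positivity)
    rw [show (6 : ℝ) * G = ((6 * G : ℕ) : ℝ) * 1 by push_cast; ring, Real.exp_nat_mul]
    exact pow_le_pow_left₀ (by norm_num) (by linarith [Real.add_one_le_exp 1]) _
  have b4 : (1 - 1 / (r : ℝ)) ^ (k / 2) ≤ Real.exp (-(((k / 2 : ℕ) : ℝ) / r)) := by
    rw [show -(((k / 2 : ℕ) : ℝ) / r) = ((k / 2 : ℕ) : ℝ) * (-(1 / r)) by ring, Real.exp_nat_mul]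
    refine pow_le_pow_left₀ ?_ (by linarith [Real.add_one_le_exp (-(1 / (r : ℝ)))]) _
    rw [sub_nonneg, div_le_one (by linarith)]
    linarith
  have c2 := pow_exp hk (10 * D + 4 + 2) (x := ((k / 2 : ℕ) : ℝ) / r - 6 * G) (by
    push_cast
    linarith)
  rw [pow_add _ _ 2, neg_sub, sub_eq_add_neg, Real.exp_add] at c2
  have b5 : (0 : ℝ) ≤ (1 - 1 / (r : ℝ)) ^ (k / 2) := by
    refine pow_nonneg ?_ _
    rw [sub_nonneg, div_le_one (by linarith)]
    linarith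
  have d := mul_le_mul_of_nonneg_left (mul_le_mul b3 b4 b5 (by positivity)) (pow_nonneg h0 2)
  generalize (((2 * H * ((2 * H + 1) * (k * (5 * (2 * k ^ 2 + 1)) + 1) ^ 2) ^ D)
      * (4 * D * (2 ^ G) ^ 2 + 1) ^ 3 : ℕ) : ℝ) = Y at *
  generalize ((((2 ^ G) ^ D) ^ 2 : ℕ) : ℝ) = X at *
  linarith

theorem ex_g {k r : ℝ} (hr : 2 ≤ r) (h : 2304 * r ≤ k) :
    ∃ g : ℕ, 16 * r * (g : ℝ) ≤ k ∧ k ≤ 32 * r * g := by
  have hk : 0 ≤ k := by linarith
  have hr0 : 0 < r := by linarith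
  refine ⟨⌊k / (16 * r)⌋₊, ?_, ?_⟩
  · have := Nat.floor_le (show 0 ≤ k / (16 * r) by positivity)
    rwa [le_div_iff₀' (by positivity)] at this
  · have := Nat.lt_floor_add_one (k / (16 * r))
    rw [div_lt_iff₀' (by positivity)] at this
    linarith

theorem ex_ceil {x y : ℝ} (hx : 0 ≤ x) (hy : 0 < y) : ∃ n : ℕ, x ≤ y * n ∧ y * n ≤ x + y := by
  refine ⟨⌈x / y⌉₊, ?_, ?_⟩
  · have := Nat.le_ceil (x / y)
    rwa [div_le_iff₀' hy] at this
  · have := (Nat.ceil_lt_add_one (show 0 ≤ x / y by positivity)).le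
    rwa [div_add_one hy.ne', le_div_iff₀' hy] at this

theorem one_le_of {x y : ℝ} {n : ℕ} (hx : 0 < x) (h : x ≤ y * n) : 1 ≤ n := by
  rcases Nat.eq_zero_or_pos n with rfl | h'
  · simp at h
    linarith
  · exact h'

theorem basic {k r l lr η : ℝ} (hη : 0 < η) (hη1 : η ≤ 1 / 16) (hl0 : 0 ≤ l) (hk : 0 ≤ k)
    (h1 : 2304 * r ^ 2 * l ^ 4 ≤ η ^ 4 * k) (h2 : (1 / 2 - 2 * η) * l ≤ lr) (h3 : 3 ≤ η * l)
    (h4 : lr ≤ r - 1) :
    48 ≤ l ∧ 2 ≤ r ∧ η ^ 2 ≤ 1 ∧ 96 ≤ r * l ∧ 2304 * (r * l) ^ 2 ≤ k ∧ 2304 * (r * l) ≤ k ∧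
      2304 * r ≤ k := by
  have a0 := mul_le_mul_of_nonneg_right hη1 hl0
  have hl : 48 ≤ l := by linarith
  have hr : 2 ≤ r := by linarith
  have hη2 : η ^ 2 ≤ 1 := pow_le_one₀ hη.le (by linarith)
  have hη4 : η ^ 4 ≤ 1 := pow_le_one₀ hη.le (by linarith)
  have a1 : 2 * 48 ≤ r * l := mul_le_mul hr hl (by norm_num) (by linarith)
  have a2 := mul_le_mul_of_nonneg_right hη4 hk
  have a3 : 1 ≤ l ^ 2 := one_le_pow₀ (by linarith)
  have a4 := mul_le_mul_of_nonneg_left a3 (sq_nonneg (r * l))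
  have a5 : r * l * 1 ≤ r * l * (r * l) := mul_le_mul_of_nonneg_left (by linarith) (by linarith)
  have a6 : r * 1 ≤ r * l := mul_le_mul_of_nonneg_left (by linarith) (by linarith)
  have a7 : 2304 * (r * l) ^ 2 ≤ k := by linarith
  exact ⟨hl, hr, hη2, by linarith, a7, by linarith, by linarith⟩

theorem bound_D {k r l t c g D : ℝ} (hc : c ≤ 1 / 16) (hk : 0 ≤ k) (hl : 0 ≤ l) (hg : 0 ≤ g)
    (hrl : 96 ≤ r * l) (ht : 2 / 3 ≤ t) (hgt : 0 < g * t) (g2 : k ≤ 32 * r * g)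
    (d2 : g * t * D ≤ c * k * l + g * t) : D ≤ 4 * (r * l) := by
  have a1 : c * k * l ≤ 1 / 16 * (32 * r * g) * l :=
    mul_le_mul_of_nonneg_right (mul_le_mul hc g2 hk (by norm_num)) hl
  have a0 : r * l * (2 / 3) ≤ r * l * t := mul_le_mul_of_nonneg_left ht (by linarith)
  have a2 : g * (2 * (r * l)) ≤ g * (3 * (r * l) * t) :=
    mul_le_mul_of_nonneg_left (by linarith) hg
  have a3 : (g * t) * D ≤ (g * t) * (3 * (r * l) + 1) := by linarith
  have := le_of_mul_le_mul_left a3 hgt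
  linarith

theorem bound_H1 {k r l η D H H1 : ℝ} (hη : 0 < η) (hDl : 0 ≤ D * l)
    (h1 : 2304 * r ^ 2 * l ^ 4 ≤ η ^ 4 * k) (hD2 : D ^ 2 ≤ 16 * (r * l) ^ 2)
    (f2 : η ^ 2 * H ≤ 8 * (D * l)) (f4 : η ^ 2 * H1 ≤ 9 * (H * (D * l))) : 2 * H1 ≤ k := by
  have a1 : η ^ 2 * (η ^ 2 * H1) ≤ η ^ 2 * (9 * (H * (D * l))) :=
    mul_le_mul_of_nonneg_left f4 (sq_nonneg η)
  have a2 : η ^ 2 * H * (D * l) ≤ 8 * (D * l) * (D * l) := mul_le_mul_of_nonneg_right f2 hDl
  have a3 : D ^ 2 * l ^ 2 ≤ 16 * (r * l) ^ 2 * l ^ 2 :=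
    mul_le_mul_of_nonneg_right hD2 (sq_nonneg l)
  have a4 : η ^ 4 * (2 * H1) ≤ η ^ 4 * k := by linarith
  exact le_of_mul_le_mul_left a4 (by positivity)

theorem bound_m {k r l lr t c η g D m : ℝ} (hη1 : η ≤ 1 / 16) (e : c + η = 1 / 16) (hk : 49 ≤ k)
    (hl : 0 ≤ l) (hlk : l ≤ k) (hg : 0 ≤ g) (hm : 0 ≤ m) (ht : t ≤ 1)
    (h2 : (1 / 2 - 2 * η) * l ≤ lr)
    (h3 : 3 ≤ η * l) (m3 : (1 / 2 - 2 * η) * k ≤ 2 * m) (d2 : g * t * D ≤ c * k * l + g * t)
    (hg16 : 32 * g ≤ k) (hD2 : D ^ 2 ≤ 16 * (r * l) ^ 2) (big : 2304 * (r * l) ^ 2 ≤ k) :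
    2 * D * (g + D) * t + 2 * l ≤ m * lr := by
  have a1 : (1 / 2 - 2 * η) * k * ((1 / 2 - 2 * η) * l) ≤ 2 * m * lr :=
    mul_le_mul m3 h2 (mul_nonneg (by linarith) hl) (by linarith)
  have a2 : 3 * k ≤ η * l * k := mul_le_mul_of_nonneg_right h3 (by linarith)
  have a3 : 0 ≤ η ^ 2 * (k * l) := mul_nonneg (sq_nonneg η) (mul_nonneg (by linarith) hl)
  have a4 : D ^ 2 * t ≤ D ^ 2 * 1 := mul_le_mul_of_nonneg_left ht (sq_nonneg _)
  have a5 : g * t ≤ g * 1 := mul_le_mul_of_nonneg_left ht hg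
  have a6 : c * k * l = (1 / 16 - η) * k * l := by rw [← e]; ring
  linarith

theorem bound_s {k r l g D y : ℝ} (hl : 48 ≤ l) (hr : 2 ≤ r) (hD : 1 ≤ D) (hrl : 96 ≤ r * l)
    (a1 : k - 1 ≤ 2 * y) (g1 : 16 * r * g ≤ k) (d3 : D ≤ 4 * (r * l))
    (big : 2304 * (r * l) ^ 2 ≤ k) (big2 : 2304 * (r * l) ≤ k) :
    (10 * D + 7) * l + 6 * (g + D) ≤ y / r := by
  rw [le_div_iff₀ (by linarith)]
  have a2 : D * (r * l) ≤ 4 * (r * l) * (r * l) := mul_le_mul_of_nonneg_right d3 (by linarith)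
  have a3 : D * r * 1 ≤ D * r * l :=
    mul_le_mul_of_nonneg_left (by linarith) (mul_nonneg (by linarith) (by linarith))
  linarith

/-- the sizes of the parameters -/
theorem sizes {k r : ℕ} {c η : ℝ} (hc : 0 < c) (hη : 0 < η) (e : c + η = 1 / 16)
    (h1 : 2304 * (r : ℝ) ^ 2 * Real.log k ^ 4 ≤ η ^ 4 * k)
    (h2 : (1 / 2 - 2 * η) * Real.log k ≤ Real.log r) (h3 : 3 ≤ η * Real.log k) :
    ∃ D H H1 m1 g : ℕ, 16 ≤ k ∧ 1 ≤ D ∧ 1 ≤ H ∧ H ≤ H1 ∧ 2 * H1 ≤ k ∧ 2 ≤ r ∧ 1 ≤ m1 ∧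
      (2 * m1 : ℝ) ≤ (1 / 2 - η) * k ∧ 4 * D + 1 ≤ k ∧ 8 * (g + D) ≤ k ∧
      Real.log k ≤ g * Real.log 2 ∧ c * k * Real.log k ≤ g * Real.log 2 * D ∧
      7 * D * Real.log k ≤ η ^ 2 * H ∧ 8 * H * D * Real.log k ≤ η ^ 2 * H1 ∧
      2 * D * (g + D : ℕ) * Real.log 2 + 2 * Real.log k ≤ m1 * Real.log r ∧
      (10 * D + 7) * Real.log k + 6 * (g + D : ℕ) ≤ ((k / 2 : ℕ) : ℝ) / r := by
  have hl0 : 0 ≤ Real.log k := Real.log_natCast_nonneg k
  have hη1 : η ≤ 1 / 16 := by linarith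
  have hk0 : k ≠ 0 := by
    rintro rfl
    simp at h3
    linarith
  have hkl : Real.log k ≤ k - 1 := Real.log_le_sub_one_of_pos (by positivity)
  generalize Real.log k = l at *
  have hr0 : r ≠ 0 := by
    rintro rfl
    have := mul_le_mul_of_nonneg_right hη1 hl0
    simp only [Nat.cast_zero, Real.log_zero] at h2
    linarith
  have hrl : Real.log r ≤ r - 1 := Real.log_le_sub_one_of_pos (by positivity)
  generalize Real.log r = lr at *
  have t1 : 2 / 3 ≤ Real.log 2 := by linarith [Real.log_two_gt_d9]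
  have t2 : Real.log 2 ≤ 1 := by linarith [Real.log_two_lt_d9]
  generalize Real.log 2 = t at *
  have hkR : (0 : ℝ) ≤ k := Nat.cast_nonneg k
  obtain ⟨hl, hr, hη2, hrl0, big1, big2, big3⟩ := basic hη hη1 hl0 hkR h1 h2 h3 hrl
  obtain ⟨g, g1, g2⟩ := ex_g hr big3
  have g0 : (0 : ℝ) ≤ g := Nat.cast_nonneg g
  have g3 : 72 * l ≤ g :=
    le_of_mul_le_mul_left (show (r : ℝ) * (72 * l) ≤ r * g by linarith) (by linarith)
  have g4 : (g : ℝ) * (2 / 3) ≤ g * t := mul_le_mul_of_nonneg_left t1 g0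
  have hgt : 0 < g * t := by linarith
  have hk49 : (49 : ℝ) ≤ k := by linarith
  have hckl : 0 < c * k * l := mul_pos (mul_pos hc (by linarith)) (by linarith)
  obtain ⟨D, d1, d2⟩ := ex_ceil hckl.le hgt
  have hD1 : 1 ≤ D := one_le_of hckl d1
  have hD1' : (1 : ℝ) ≤ D := by exact_mod_cast hD1
  have d3 : (D : ℝ) ≤ 4 * (r * l) := bound_D (by linarith) hkR hl0 g0 hrl0 t1 hgt g2 d2
  have hDl : 1 * 48 ≤ D * l := mul_le_mul hD1' hl (by norm_num) (by linarith)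
  have hp : 0 < η ^ 2 := by positivity
  obtain ⟨H, f1, f2⟩ := ex_ceil (show 0 ≤ 7 * D * l by linarith) hp
  have hH1 : 1 ≤ H := one_le_of (by linarith) f1
  have hH1' : (1 : ℝ) ≤ H := by exact_mod_cast hH1
  have hHD : (H : ℝ) * (1 * 48) ≤ H * (D * l) := mul_le_mul_of_nonneg_left hDl (by linarith)
  obtain ⟨H1, f3, f4⟩ := ex_ceil (show 0 ≤ 8 * H * D * l by linarith) hp
  have hηk : η * l ≤ η * k := mul_le_mul_of_nonneg_left (by linarith) hη.le
  have hηk' : η * k ≤ 1 / 16 * k := mul_le_mul_of_nonneg_right hη1 hkR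
  obtain ⟨m1, m2, m3⟩ : ∃ m1 : ℕ, (2 * m1 : ℝ) ≤ (1 / 2 - η) * k ∧
      (1 / 2 - 2 * η) * k ≤ 2 * m1 := by
    refine ⟨⌊(1 / 2 - η) * k / 2⌋₊, ?_, ?_⟩
    · have := Nat.floor_le (show 0 ≤ (1 / 2 - η) * k / 2 by linarith)
      linarith
    · have := Nat.lt_floor_add_one ((1 / 2 - η) * k / 2)
      linarith
  have hg16 : 32 * (g : ℝ) ≤ k := by
    have := mul_le_mul_of_nonneg_right hr g0
    linarith
  have hD2 : (D : ℝ) ^ 2 ≤ 16 * (r * l) ^ 2 := by
    have := pow_le_pow_left₀ (Nat.cast_nonneg D) d3 2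
    linarith
  refine ⟨D, H, H1, m1, g, by exact_mod_cast (show (16 : ℝ) ≤ k by linarith), hD1, hH1, ?_, ?_,
    by exact_mod_cast hr, ?_, m2, ?_, ?_, by linarith, d1, f1, f3, ?_, ?_⟩
  · have a1 : η ^ 2 * H1 ≤ 1 * H1 := mul_le_mul_of_nonneg_right hη2 (Nat.cast_nonneg _)
    have : (H : ℝ) ≤ H1 := by linarith
    exact_mod_cast this
  · have := bound_H1 (H := H) (H1 := H1) hη (by linarith) h1 hD2 (by linarith) (by linarith)
    exact_mod_cast this
  · have : (1 : ℝ) ≤ m1 := by linarith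
    exact_mod_cast this
  · have : 4 * (D : ℝ) + 1 ≤ k := by linarith
    exact_mod_cast this
  · have : 8 * ((g : ℝ) + D) ≤ k := by linarith
    exact_mod_cast this
  · push_cast
    exact bound_m hη1 e hk49 hl0 (by linarith) g0 (Nat.cast_nonneg _) t2 h2 h3 m3 d2 hg16 hD2 big1
  · have a1 : (k : ℝ) - 1 ≤ 2 * ((k / 2 : ℕ) : ℝ) := by
      have : k ≤ 2 * (k / 2) + 1 := by omega
      have : (k : ℝ) ≤ 2 * ((k / 2 : ℕ) : ℝ) + 1 := by exact_mod_cast this
      linarith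
    push_cast
    exact bound_s hl hr hD1' hrl0 a1 g1 d3 big1 big2

theorem large {η : ℝ} (hη : 0 < η) (hη1 : η ≤ 1 / 16) : ∃ k0 : ℕ, ∀ k ≥ k0, ∃ r : ℕ,
    2304 * (r : ℝ) ^ 2 * Real.log k ^ 4 ≤ η ^ 4 * k ∧
      (1 / 2 - 2 * η) * Real.log k ≤ Real.log r ∧ 3 ≤ η * Real.log k := by
  have t1 : Filter.Tendsto (fun k : ℕ => η * Real.log k) Filter.atTop Filter.atTop :=
    (Real.tendsto_log_atTop.comp tendsto_natCast_atTop_atTop).const_mul_atTop hη
  have t2 := (t1.eventually_ge_atTop 3).and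
    ((t1.eventually_ge_atTop (2304 * 256 / η ^ 8)).and (Filter.eventually_ge_atTop 1))
  obtain ⟨k0, hk0⟩ := Filter.eventually_atTop.1 t2
  refine ⟨k0, fun k hk => ?_⟩
  obtain ⟨a1, a2, a3⟩ := hk0 k hk
  have hk1 : (0 : ℝ) < k := by exact_mod_cast a3
  have hl0 : 0 ≤ Real.log k := Real.log_natCast_nonneg k
  have ek := Real.exp_log hk1
  generalize Real.log k = l at *
  have b1 : 4 ≤ Real.exp (η * l) := by linarith [Real.add_one_le_exp (η * l)]
  have b2 : Real.exp ((1 / 2 - η) * l) = Real.exp ((1 / 2 - 2 * η) * l) * Real.exp (η * l) := by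
    rw [← Real.exp_add]
    congr 1
    ring
  have b3 : 1 ≤ Real.exp ((1 / 2 - 2 * η) * l) :=
    Real.one_le_exp (mul_nonneg (by linarith) hl0)
  refine ⟨⌊Real.exp ((1 / 2 - η) * l)⌋₊, ?_, ?_, a1⟩
  · have c1 := Nat.floor_le (Real.exp_pos ((1 / 2 - η) * l)).le
    have c2 : ((⌊Real.exp ((1 / 2 - η) * l)⌋₊ : ℕ) : ℝ) ^ 2 ≤ Real.exp ((1 / 2 - η) * l) ^ 2 :=
      pow_le_pow_left₀ (Nat.cast_nonneg _) c1 2
    have c3 : (η * l / 4) ^ 4 ≤ Real.exp (η * l) := by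
      rw [show η * l = (4 : ℕ) * (η * l / 4) by push_cast; ring, Real.exp_nat_mul]
      refine pow_le_pow_left₀ (by positivity) ?_ 4
      have := Real.add_one_le_exp (η * l / 4)
      push_cast
      linarith
    have c4 : 2304 * 256 ≤ η ^ 8 * Real.exp (η * l) := by
      rw [← div_le_iff₀' (by positivity)]
      linarith [Real.add_one_le_exp (η * l)]
    have c5 : Real.exp ((1 / 2 - η) * l) ^ 2 * Real.exp (η * l) * Real.exp (η * l) = k := by
      rw [← ek, ← Real.exp_nat_mul, ← Real.exp_add, ← Real.exp_add]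
      congr 1
      push_cast
      ring
    have c6 : 2304 * l ^ 4 ≤ η ^ 4 * (Real.exp (η * l) * Real.exp (η * l)) := by
      have p4 : 0 < η ^ 4 := by positivity
      refine le_of_mul_le_mul_left ?_ p4
      have := mul_le_mul c4 c3 (by positivity) (by positivity)
      nlinarith
    have := mul_le_mul c2 c6 (by positivity) (by positivity)
    rw [← c5]
    nlinarith
  · have c1 := Nat.lt_floor_add_one (Real.exp ((1 / 2 - η) * l))
    have c2 : Real.exp ((1 / 2 - 2 * η) * l) ≤ ((⌊Real.exp ((1 / 2 - η) * l)⌋₊ : ℕ) : ℝ) := by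
      nlinarith
    exact (Real.le_log_iff_exp_le (by linarith)).2 c2

end Num

theorem numbers (c : ℝ) (hc : c < 1 / 16) : ∃ k0 : ℕ, ∀ k ≥ k0,
    ∃ (D H H1 B r q' m1 : ℕ) (η : ℝ) (q : Fin D → ℕ),
      1 ≤ H ∧ H ≤ H1 ∧ 2 * H1 ≤ k ∧ 2 ≤ r ∧ 1 ≤ m1 ∧ 0 ≤ η ∧
      (2 * m1 : ℝ) ≤ (1 / 2 - η) * k ∧
      (∀ j, (q j).Prime ∧ k < q j ∧ q j ≤ q') ∧ Function.Injective q ∧
      8 * (k : ℝ) * Real.log q' ≤ B ∧
      4 * (k : ℝ) * ((((k * (k * ((2 * H).factorial * (2 * B + 1))) + 1) ^ (2 * D) : ℕ) : ℝ)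
          * (2 * Real.exp (-(2 * η ^ 2 * H1)))
        + k * ((2 * H1 * ((2 * H1 + 1) * (k * (5 * (2 * B + 1)) + 1) ^ 2) ^ D : ℕ) : ℝ)
          * (2 * Real.exp (-(2 * η ^ 2 * H)))) ≤ 1 ∧
      8 * (k : ℝ) * ((((q' ^ D) ^ 2 : ℕ) : ℝ) * (1 / (r : ℝ)) ^ m1
        + k * (((2 * H * ((2 * H + 1) * (k * (5 * (2 * B + 1)) + 1) ^ 2) ^ D)
            * (4 * D * q' ^ 2 + 1) ^ 3 : ℕ) : ℝ) * (1 - 1 / (r : ℝ)) ^ (k / 2)) ≤ 1 ∧
      (k : ℝ) ^ (c * k) ≤ ((∏ j, q j : ℕ) : ℝ) := by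
  obtain ⟨c', c1, c2, c3⟩ : ∃ c' : ℝ, c ≤ c' ∧ 0 < c' ∧ c' < 1 / 16 :=
    ⟨max c (1 / 32), le_max_left _ _, lt_of_lt_of_le (by norm_num) (le_max_right _ _),
      max_lt hc (by norm_num)⟩
  obtain ⟨k0, hk0⟩ := Num.large (η := 1 / 16 - c') (by linarith) (by linarith)
  refine ⟨k0, fun k hk => ?_⟩
  obtain ⟨r, r1, r2, r3⟩ := hk0 k hk
  obtain ⟨D, H, H1, m1, g, a1, a2, a3, a4, a5, a6, a7, a8, a9, a10, a11, a12, a13, a14, a15, a16⟩ :=
    Num.sizes c2 (η := 1 / 16 - c') (by linarith) (by ring) r1 r2 r3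
  obtain ⟨q, q1, q2⟩ := Num.primes g D
  have hk1 : (0 : ℝ) < k := by exact_mod_cast (show 0 < k by omega)
  refine ⟨D, H, H1, k ^ 2, r, 2 ^ (g + D), m1, 1 / 16 - c', q, a3, a4, a5, a6, a7, by linarith, a8,
    fun j => ⟨(q1 j).1, lt_of_le_of_lt ?_ (q1 j).2.1, (q1 j).2.2⟩, q2, ?_,
    Num.stage_one a1 a2 a3 a4 a5 a13 a14,
    Num.stage_two a1 (by omega) a9 a6 a15 a16, ?_⟩
  · rw [← Real.log_pow, Real.log_le_log_iff hk1 (by positivity)] at a11
    exact_mod_cast a11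
  · have b1 : 8 * ((g : ℝ) + D) ≤ k := by exact_mod_cast a10
    have b2 : ((g : ℝ) + D) * Real.log 2 ≤ (g + D) * 1 :=
      mul_le_mul_of_nonneg_left (by linarith [Real.log_two_lt_d9]) (by positivity)
    push_cast
    rw [Real.log_pow]
    push_cast
    nlinarith
  · have b1 : (2 ^ g) ^ D ≤ ∏ j, q j := by
      have := Finset.pow_card_le_prod (Finset.univ : Finset (Fin D)) q (2 ^ g)
        fun j _ => (q1 j).2.1.le
      simpa using this
    refine le_trans ?_ (Nat.cast_le.2 b1)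
    have b2 : c * k * Real.log k ≤ c' * k * Real.log k :=
      mul_le_mul_of_nonneg_right (mul_le_mul_of_nonneg_right c1 hk1.le)
        (Real.log_natCast_nonneg k)
    rw [Real.rpow_def_of_pos hk1, ← pow_mul]
    push_cast
    rw [← Real.exp_log (show (0 : ℝ) < 2 ^ (g * D) by positivity), Real.log_pow]
    refine Real.exp_le_exp.2 ?_
    push_cast
    linarith

end Pool.Agent.MP_a31471_co.sx

end MrgPart0

-- ======== part 1: formerly Pool.Agent.MP_a31471_co.ex.Count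
section MrgPart1

/-!
Patterns of a monotone function along families with several parameters, and the choice of
letters by the local lemma.
-/

set_option autoImplicit false

namespace Pool.Agent.MP_a31471_co.ex

open Finset

theorem sum_choose_le (m n : ℕ) : ∑ j ∈ Finset.Iic n, m.choose j ≤ (m + 1) ^ n := by
  induction n with
  | zero =>
    have e : (Finset.Iic 0 : Finset ℕ) = {0} := by decide
    rw [e]; simp
  | succ n ih =>
    have e : (Finset.Iic (n + 1) : Finset ℕ) = insert (n + 1) (Finset.Iic n) := by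
      ext j; simp only [Finset.mem_Iic, Finset.mem_insert]; omega
    rw [e, Finset.sum_insert (by simp)]
    have h1 : m.choose (n + 1) ≤ m ^ (n + 1) := Nat.choose_le_pow m (n + 1)
    have h2 : m ^ n ≤ (m + 1) ^ n := Nat.pow_le_pow_left (by omega) n
    have h3 : m ^ (n + 1) ≤ m * (m + 1) ^ n := by
      rw [pow_succ']; exact Nat.mul_le_mul_left _ h2
    calc m.choose (n + 1) + ∑ j ∈ Finset.Iic n, m.choose j
        ≤ m * (m + 1) ^ n + (m + 1) ^ n := by omega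
      _ = (m + 1) ^ (n + 1) := by ring

theorem card_patterns_pow {ι : Type*} [Fintype ι] (k T : ℕ) (K : ℚ → ℤ) (hK : Monotone K)
    (c : Fin k → ι → ℚ) (lo : Fin k → ℤ) {β : Type*} (g : ℤ → β) (R : Finset (Fin k → β))
    (hR : ∀ ρ ∈ R, ∃ u : ι → ℚ,
      (∀ i, lo i ≤ K (∑ m, c i m * u m) ∧ K (∑ m, c i m * u m) < lo i + T) ∧
      ∀ i, ρ i = g (K (∑ m, c i m * u m))) :
    R.card ≤ (k * T + 1) ^ Fintype.card ι := by
  classical
  choose! u huv hρ using hR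
  let z : (Fin k → β) → Fin k → ℚ := fun ρ i => ∑ m, c i m * u ρ m
  let E : (Fin k → β) → Finset (Fin k × Fin T) := fun ρ =>
    univ.filter (fun y => lo y.1 + (y.2 : ℕ) < K (z ρ y.1))
  have hinj : Set.InjOn E R := by
    intro ρ h1 ρ' h2 hE
    have hle : ∀ ρ ∈ R, ∀ ρ' ∈ R, E ρ = E ρ' → ∀ i, K (z ρ i) ≤ K (z ρ' i) := by
      intro ρ h1 ρ' h2 hE i
      by_contra hlt
      push Not at hlt
      have a1 : lo i ≤ K (z ρ i) ∧ K (z ρ i) < lo i + T := huv ρ h1 i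
      have a2 : lo i ≤ K (z ρ' i) ∧ K (z ρ' i) < lo i + T := huv ρ' h2 i
      obtain ⟨t, ht⟩ := Int.eq_ofNat_of_zero_le (sub_nonneg.2 a2.1)
      have htT : t < T := by omega
      have m1 : (i, (⟨t, htT⟩ : Fin T)) ∈ E ρ := by
        simp only [E, Finset.mem_filter, Finset.mem_univ, true_and]
        omega
      rw [hE] at m1
      simp only [E, Finset.mem_filter, Finset.mem_univ, true_and] at m1
      omega
    funext i
    have b1 : ρ i = g (K (z ρ i)) := hρ ρ h1 i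
    have b2 : ρ' i = g (K (z ρ' i)) := hρ ρ' h2 i
    rw [b1, b2, le_antisymm (hle ρ h1 ρ' h2 hE i) (hle ρ' h2 ρ h1 hE.symm i)]
  have hcard : R.card = (R.image E).card := (Finset.card_image_of_injOn hinj).symm
  have hvc : (R.image E).vcDim ≤ Fintype.card ι := by
    refine Finset.sup_le (fun s hs => ?_)
    rw [Finset.mem_shatterer] at hs
    by_contra hlt
    push Not at hlt
    have hdep : ¬ LinearIndependent ℚ (fun y : s => c y.1.1) := by
      intro hli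
      have := hli.fintype_card_le_finrank
      rw [Module.finrank_fintype_fun_eq_card, Fintype.card_coe] at this
      omega
    obtain ⟨α, hα, y0, hy0⟩ := Fintype.not_linearIndependent_iff.1 hdep
    let t : Finset (Fin k × Fin T) := s.filter (fun y => ∃ h : y ∈ s, 0 < α ⟨y, h⟩)
    obtain ⟨A, hA, eA⟩ := hs (t := t) (Finset.filter_subset _ _)
    obtain ⟨B, hB, eB⟩ := hs (t := s \ t) Finset.sdiff_subset
    obtain ⟨ρ, -, rfl⟩ := Finset.mem_image.1 hA
    obtain ⟨ρ', -, rfl⟩ := Finset.mem_image.1 hB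
    have key : ∀ y : s, (0 < α y → z ρ' y.1.1 < z ρ y.1.1) ∧
        (¬ 0 < α y → z ρ y.1.1 < z ρ' y.1.1) := by
      intro y
      constructor
      · intro h
        have m1 : y.1 ∈ t := Finset.mem_filter.2 ⟨y.2, y.2, h⟩
        have m2 : y.1 ∈ E ρ := (Finset.mem_inter.1 (eA ▸ m1)).2
        have m3 : y.1 ∉ E ρ' := fun h' =>
          (Finset.mem_sdiff.1 (eB ▸ Finset.mem_inter.2 ⟨y.2, h'⟩)).2 m1
        simp only [E, Finset.mem_filter, Finset.mem_univ, true_and, not_lt] at m2 m3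
        exact hK.reflect_lt (lt_of_le_of_lt m3 m2)
      · intro h
        have m1 : y.1 ∉ t := fun h' => by
          obtain ⟨_, h2⟩ := (Finset.mem_filter.1 h').2
          exact h h2
        have m2 : y.1 ∉ E ρ := fun h' => m1 (eA ▸ Finset.mem_inter.2 ⟨y.2, h'⟩)
        have m3 : y.1 ∈ E ρ' :=
          (Finset.mem_inter.1 (eB ▸ Finset.mem_sdiff.2 ⟨y.2, m1⟩ : y.1 ∈ s ∩ E ρ')).2
        simp only [E, Finset.mem_filter, Finset.mem_univ, true_and, not_lt] at m2 m3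
        exact hK.reflect_lt (lt_of_le_of_lt m2 m3)
    have hzero : ∑ y : s, α y * (z ρ y.1.1 - z ρ' y.1.1) = 0 := by
      have h1 : ∀ m, ∑ y : s, α y * c y.1.1 m = 0 := by
        intro m
        have := congrFun hα m
        simpa [Finset.sum_apply] using this
      have h2 : ∀ y : s, α y * (z ρ y.1.1 - z ρ' y.1.1)
          = ∑ m, α y * c y.1.1 m * (u ρ m - u ρ' m) := by
        intro y
        simp only [z]
        rw [← Finset.sum_sub_distrib, Finset.mul_sum]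
        exact Finset.sum_congr rfl (fun m _ => by ring)
      rw [Finset.sum_congr rfl (fun y _ => h2 y), Finset.sum_comm]
      refine Finset.sum_eq_zero (fun m _ => ?_)
      rw [← Finset.sum_mul, h1 m, zero_mul]
    have hnn : ∀ y : s, 0 ≤ α y * (z ρ y.1.1 - z ρ' y.1.1) := by
      intro y
      by_cases h : 0 < α y
      · exact mul_nonneg h.le (sub_nonneg.2 ((key y).1 h).le)
      · exact mul_nonneg_of_nonpos_of_nonpos (not_lt.1 h) (sub_nonpos.2 ((key y).2 h).le)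
    have h0 := (Finset.sum_eq_zero_iff_of_nonneg (fun y _ => hnn y)).1 hzero y0 (mem_univ _)
    rcases mul_eq_zero.1 h0 with h | h
    · exact hy0 h
    · by_cases h' : 0 < α y0
      · linarith [(key y0).1 h']
      · linarith [(key y0).2 h']
  have h1 := (Finset.card_le_card_shatterer (R.image E)).trans
    (Finset.card_shatterer_le_sum_vcDim (𝒜 := R.image E))
  rw [hcard]
  refine h1.trans ?_
  refine le_trans (Finset.sum_le_sum_of_subset (Finset.Iic_subset_Iic.2 hvc)) ?_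
  simp only [Fintype.card_prod, Fintype.card_fin]
  exact sum_choose_le _ _

theorem card_miss {V : Type*} [Fintype V] [DecidableEq V] {r : ℕ} (hr : 1 ≤ r) (S : Finset V)
    (m : ℕ) (hm : m ≤ S.card) :
    (((univ : Finset (V → Fin r)).filter (fun φ => ∃ c, ∀ v ∈ S, φ v ≠ c)).card : ℝ)
      ≤ r * (1 - 1 / (r : ℝ)) ^ m * (Fintype.card (Fin r) : ℝ) ^ Fintype.card V := by
  classical
  have hr' : (1 : ℝ) ≤ r := by exact_mod_cast hr
  have h0 : (0 : ℝ) ≤ 1 - 1 / (r : ℝ) := by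
    rw [sub_nonneg, div_le_one (by linarith)]; exact hr'
  have h1 : 1 - 1 / (r : ℝ) ≤ 1 := by
    have : (0 : ℝ) ≤ 1 / r := by positivity
    linarith
  have one : ∀ c : Fin r,
      (((univ : Finset (V → Fin r)).filter (fun φ => ∀ v ∈ S, φ v ≠ c)).card : ℝ)
        ≤ (1 - 1 / (r : ℝ)) ^ m * (r : ℝ) ^ Fintype.card V := by
    intro c
    have e : (univ : Finset (V → Fin r)).filter (fun φ => ∀ v ∈ S, φ v ≠ c)
        = Fintype.piFinset (fun v => if v ∈ S then univ.erase c else univ) := by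
      ext φ
      simp only [Finset.mem_filter, Finset.mem_univ, true_and, Fintype.mem_piFinset]
      refine forall_congr' (fun v => ?_)
      by_cases h : v ∈ S <;> simp [h]
    rw [e, Fintype.card_piFinset]
    push_cast
    have e2 : ∀ v, (((if v ∈ S then univ.erase c else univ : Finset (Fin r))).card : ℝ)
        = (if v ∈ S then 1 - 1 / (r : ℝ) else 1) * r := by
      intro v
      by_cases h : v ∈ S
      · simp only [h, if_true, Finset.card_erase_of_mem (Finset.mem_univ c), Finset.card_univ,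
          Fintype.card_fin]
        rw [Nat.cast_sub hr]
        field_simp
        simp
      · simp [h]
    rw [Finset.prod_congr rfl (fun v _ => e2 v), Finset.prod_mul_distrib, Finset.prod_const,
      Finset.card_univ, Finset.prod_ite_mem, Finset.univ_inter, Finset.prod_const]
    exact mul_le_mul_of_nonneg_right (pow_le_pow_of_le_one h0 h1 hm) (by positivity)
  have sub : (univ : Finset (V → Fin r)).filter (fun φ => ∃ c, ∀ v ∈ S, φ v ≠ c)
      ⊆ univ.biUnion (fun c : Fin r => univ.filter (fun φ => ∀ v ∈ S, φ v ≠ c)) := by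
    intro φ hφ
    obtain ⟨c, hc⟩ := (Finset.mem_filter.1 hφ).2
    exact Finset.mem_biUnion.2 ⟨c, mem_univ _, Finset.mem_filter.2 ⟨mem_univ _, hc⟩⟩
  have h2 := (Finset.card_le_card sub).trans Finset.card_biUnion_le
  have h3 : ((∑ c : Fin r, ((univ : Finset (V → Fin r)).filter
      (fun φ => ∀ v ∈ S, φ v ≠ c)).card : ℕ) : ℝ)
      ≤ ∑ _c : Fin r, (1 - 1 / (r : ℝ)) ^ m * (r : ℝ) ^ Fintype.card V := by
    push_cast
    exact Finset.sum_le_sum (fun c _ => one c)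
  rw [Finset.sum_const, Finset.card_univ, Fintype.card_fin, nsmul_eq_mul] at h3
  rw [Fintype.card_fin, mul_assoc]
  exact le_trans (by exact_mod_cast h2) h3

/-- Letters on the labels such that every pattern of the family meets every letter. -/
theorem letters {V : Type*} [Fintype V] [DecidableEq V] {k r h h1 : ℕ} (hk : 0 < k) (hr : 1 ≤ r)
    (Pat Hv : Finset (Fin k → V)) (P1 P2 : ℝ) (hP2 : 0 ≤ P2)
    (a0 : ∀ π ∈ Pat, h ≤ (univ.image π).card)
    (a1 : ∀ π ∈ Pat, π ∉ Hv → h1 ≤ (univ.image π).card)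
    (b1 : (Pat.card : ℝ) ≤ P1)
    (b2 : ∀ i v, ((Hv.filter (fun π => π i = v)).card : ℝ) ≤ P2)
    (hs : P1 * (r * (1 - 1 / (r : ℝ)) ^ h1) + k * k * P2 * (r * (1 - 1 / (r : ℝ)) ^ h) ≤ 1 / 4) :
    ∃ φ : V → Fin r, ∀ π ∈ Pat, ∀ c, ∃ i, φ (π i) = c := by
  classical
  have : Nonempty (Fin r) := ⟨⟨0, hr⟩⟩
  have hr' : (1 : ℝ) ≤ r := by exact_mod_cast hr
  have h0 : (0 : ℝ) ≤ 1 - 1 / (r : ℝ) := by
    rw [sub_nonneg, div_le_one (by linarith)]; exact hr'
  set p0 : ℝ := r * (1 - 1 / (r : ℝ)) ^ h with hp0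
  set p1 : ℝ := r * (1 - 1 / (r : ℝ)) ^ h1 with hp1
  have n0 : 0 ≤ p0 := by positivity
  have n1 : 0 ≤ p1 := by positivity
  obtain ⟨φ, hφ⟩ := sx.local_lemma (α := Fin r) Pat (fun π => univ.image π)
    (fun π => univ.filter (fun φ => ∃ c, ∀ v ∈ univ.image π, φ v ≠ c))
    (fun π f g hfg hf => by
      obtain ⟨c, hc⟩ := (Finset.mem_filter.1 hf).2
      exact Finset.mem_filter.2 ⟨mem_univ _, c, fun v hv => hfg v hv ▸ hc v hv⟩)
    (fun π => if π ∈ Hv then p0 else p1)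
    (fun π hπ => by
      by_cases hh : π ∈ Hv
      · simp only [hh, if_true]
        exact card_miss hr _ _ (a0 π hπ)
      · simp only [hh, if_false]
        exact card_miss hr _ _ (a1 π hπ hh))
    (fun π _ => ⟨π ⟨0, hk⟩, Finset.mem_image_of_mem _ (mem_univ _)⟩)
    (fun π _ => by
      rw [Finset.sum_ite, Finset.sum_const, Finset.sum_const, nsmul_eq_mul, nsmul_eq_mul]
      have c1 : (((Pat.filter (fun ρ => ¬ Disjoint (univ.image ρ) (univ.image π))).filter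
          (fun ρ => ρ ∉ Hv)).card : ℝ) ≤ P1 :=
        le_trans (by exact_mod_cast (card_filter_le _ _).trans (card_filter_le _ _)) b1
      have sub : (Pat.filter (fun ρ => ¬ Disjoint (univ.image ρ) (univ.image π))).filter
          (fun ρ => ρ ∈ Hv) ⊆ (univ : Finset (Fin k × Fin k)).biUnion
            (fun y => Hv.filter (fun ρ => ρ y.1 = π y.2)) := by
        intro ρ hρ
        obtain ⟨m1, m2⟩ := Finset.mem_filter.1 hρ
        obtain ⟨v, v1, v2⟩ := Finset.not_disjoint_iff.1 (Finset.mem_filter.1 m1).2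
        obtain ⟨i, -, rfl⟩ := Finset.mem_image.1 v1
        obtain ⟨i', -, e⟩ := Finset.mem_image.1 v2
        exact Finset.mem_biUnion.2 ⟨(i, i'), mem_univ _, Finset.mem_filter.2 ⟨m2, e.symm⟩⟩
      have c2 := (Finset.card_le_card sub).trans Finset.card_biUnion_le
      have c3 : ((∑ y : Fin k × Fin k, (Hv.filter (fun ρ => ρ y.1 = π y.2)).card : ℕ) : ℝ)
          ≤ ∑ _y : Fin k × Fin k, P2 := by
        push_cast
        exact Finset.sum_le_sum (fun y _ => b2 _ _)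
      rw [Finset.sum_const, Finset.card_univ, Fintype.card_prod, Fintype.card_fin,
        nsmul_eq_mul] at c3
      have c4 : (((Pat.filter (fun ρ => ¬ Disjoint (univ.image ρ) (univ.image π))).filter
          (fun ρ => ρ ∈ Hv)).card : ℝ) ≤ k * k * P2 := by
        refine le_trans (by exact_mod_cast c2) (c3.trans (le_of_eq ?_))
        push_cast; ring
      have d1 := mul_le_mul_of_nonneg_right c1 n1
      have d2 := mul_le_mul_of_nonneg_right c4 n0
      linarith)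
  refine ⟨φ, fun π hπ c => ?_⟩
  by_contra hc
  push Not at hc
  refine hφ π hπ (Finset.mem_filter.2 ⟨mem_univ _, c, fun v hv => ?_⟩)
  obtain ⟨i, -, rfl⟩ := Finset.mem_image.1 hv
  exact hc i

end Pool.Agent.MP_a31471_co.ex

end MrgPart1

-- ======== part 2: formerly Pool.Agent.MP_a31471_co.ex.Poly
section MrgPart2

/-!
Integer sequences that are given by a polynomial of bounded degree, and interpolation.
-/

set_option autoImplicit false

namespace Pool.Agent.MP_a31471_co.ex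

open Finset Polynomial

variable {k : ℕ}

/-- The node of an index. -/
def nd (i : Fin k) : ℚ := ((i : ℕ) : ℚ)

theorem nd_inj : Function.Injective (nd : Fin k → ℚ) := fun _ _ h =>
  Fin.ext (Nat.cast_injective (R := ℚ) h)

/-- The sequence is given by a rational polynomial of degree at most `e`. -/
def PolySeq (k e : ℕ) (f : Fin k → ℤ) : Prop :=
  ∃ P : ℚ[X], P.natDegree ≤ e ∧ ∀ i : Fin k, (f i : ℚ) = P.eval (nd i)

/-- The value of a basis polynomial at a node. -/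
noncomputable def Lg (s : Finset (Fin k)) (m i : Fin k) : ℚ := (Lagrange.basis s nd m).eval (nd i)

/-- The denominator of a basis polynomial. -/
def den (s : Finset (Fin k)) (m : Fin k) : ℤ := ∏ t ∈ s.erase m, (((m : ℕ) : ℤ) - ((t : ℕ) : ℤ))

theorem sub_ne {m t : Fin k} (h : t ≠ m) : ((m : ℕ) : ℤ) - ((t : ℕ) : ℤ) ≠ 0 := by
  intro h'
  exact h (Fin.ext (by omega))

theorem den_ne (s : Finset (Fin k)) (m : Fin k) : den s m ≠ 0 :=
  Finset.prod_ne_zero_iff.2 (fun _ ht => sub_ne (Finset.mem_erase.1 ht).1)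

theorem Lg_eq (s : Finset (Fin k)) (m i : Fin k) :
    Lg s m i = ∏ t ∈ s.erase m, ((nd m - nd t)⁻¹ * (nd i - nd t)) := by
  unfold Lg Lagrange.basis
  rw [eval_prod]
  refine Finset.prod_congr rfl (fun t _ => ?_)
  simp [Lagrange.basisDivisor]

theorem den_mul_Lg (s : Finset (Fin k)) (m i : Fin k) :
    (den s m : ℚ) * Lg s m i
      = ((∏ t ∈ s.erase m, (((i : ℕ) : ℤ) - ((t : ℕ) : ℤ)) : ℤ) : ℚ) := by
  rw [Lg_eq, den]
  push_cast
  rw [← Finset.prod_mul_distrib]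
  refine Finset.prod_congr rfl (fun t ht => ?_)
  have h : nd m - nd t ≠ 0 := sub_ne_zero.2 (fun h => (Finset.mem_erase.1 ht).1 (nd_inj h).symm)
  unfold nd at h ⊢
  field_simp

theorem int_Lg (s : Finset (Fin k)) (m i : Fin k) {R : ℤ} (h : den s m ∣ R) :
    ∃ z : ℤ, (R : ℚ) * Lg s m i = z := by
  obtain ⟨c, rfl⟩ := h
  refine ⟨c * ∏ t ∈ s.erase m, (((i : ℕ) : ℤ) - ((t : ℕ) : ℤ)), ?_⟩
  rw [Int.cast_mul, Int.cast_mul, ← den_mul_Lg]
  ring

theorem abs_sub_le_k (m t : Fin k) : |((m : ℕ) : ℤ) - ((t : ℕ) : ℤ)| ≤ k := by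
  have := m.2
  have := t.2
  rw [abs_le]; constructor <;> omega

theorem abs_prod_le {e : ℕ} {s : Finset (Fin k)} (hs : s.card = e + 1) {m : Fin k} (hm : m ∈ s)
    (i : Fin k) : |∏ t ∈ s.erase m, (((i : ℕ) : ℤ) - ((t : ℕ) : ℤ))| ≤ (k : ℤ) ^ e := by
  rw [Finset.abs_prod]
  have h1 : (s.erase m).card = e := by rw [Finset.card_erase_of_mem hm, hs]; rfl
  calc ∏ t ∈ s.erase m, |((i : ℕ) : ℤ) - ((t : ℕ) : ℤ)| ≤ ∏ _t ∈ s.erase m, (k : ℤ) :=
        Finset.prod_le_prod (fun _ _ => abs_nonneg _) (fun t _ => abs_sub_le_k i t)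
    _ = (k : ℤ) ^ e := by rw [Finset.prod_const, h1]

theorem abs_Lg {e : ℕ} {s : Finset (Fin k)} (hs : s.card = e + 1) {m : Fin k} (hm : m ∈ s)
    (i : Fin k) : |Lg s m i| ≤ (k : ℚ) ^ e := by
  have h1 := den_mul_Lg s m i
  have h2 : ((|∏ t ∈ s.erase m, (((i : ℕ) : ℤ) - ((t : ℕ) : ℤ))| : ℤ) : ℚ) ≤ (k : ℚ) ^ e := by
    exact_mod_cast abs_prod_le hs hm i
  rw [Int.cast_abs, ← h1, abs_mul] at h2
  have h3 : (1 : ℚ) ≤ |(den s m : ℚ)| := by exact_mod_cast Int.one_le_abs (den_ne s m)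
  nlinarith [abs_nonneg (Lg s m i)]

theorem den_dvd {e w : ℕ} {s : Finset (Fin k)} (hs : s.card = e + 1) {m : Fin k} (hm : m ∈ s)
    (hw : ∀ t ∈ s, |((m : ℕ) : ℤ) - ((t : ℕ) : ℤ)| ≤ w) :
    den s m ∣ ((w.factorial ^ e : ℕ) : ℤ) := by
  have h1 : (s.erase m).card = e := by rw [Finset.card_erase_of_mem hm, hs]; rfl
  have h2 : ((w.factorial ^ e : ℕ) : ℤ) = ∏ _t ∈ s.erase m, (w.factorial : ℤ) := by
    rw [Finset.prod_const, h1]; push_cast; rfl
  rw [h2]
  refine Finset.prod_dvd_prod_of_dvd _ _ (fun t ht => ?_)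
  obtain ⟨a1, a2⟩ := Finset.mem_erase.1 ht
  rw [← Int.natAbs_dvd, Int.natCast_dvd_natCast]
  refine Nat.dvd_factorial (Int.natAbs_pos.2 (sub_ne a1)) ?_
  have := hw t a2
  rw [Int.abs_eq_natAbs] at this
  exact_mod_cast this

theorem sum_Lg {s : Finset (Fin k)} (hs : s.Nonempty) (i : Fin k) : ∑ m ∈ s, Lg s m i = 1 := by
  unfold Lg
  rw [← eval_finset_sum, Lagrange.sum_basis nd_inj.injOn hs, eval_one]

theorem interp {e : ℕ} {f : Fin k → ℤ} (hf : PolySeq k e f) {s : Finset (Fin k)}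
    (hs : s.card = e + 1) (i : Fin k) : (f i : ℚ) = ∑ m ∈ s, Lg s m i * f m := by
  obtain ⟨P, hP, hv⟩ := hf
  have h1 : P.degree < s.card := by
    rw [hs]
    exact lt_of_le_of_lt degree_le_natDegree (by exact_mod_cast Nat.lt_succ_of_le hP)
  have h2 := Lagrange.eq_interpolate_of_eval_eq (s := s) (v := nd) (r := fun m => (f m : ℚ))
    nd_inj.injOn h1 (fun m _ => (hv m).symm)
  rw [hv i, h2, Lagrange.interpolate_apply, eval_finset_sum]
  refine Finset.sum_congr rfl (fun m _ => ?_)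
  rw [eval_mul, eval_C, Lg, mul_comm]

theorem polySeq_of_Lg {e : ℕ} {s : Finset (Fin k)} (hs : s.card = e + 1) (g : Fin k → ℤ)
    (b : Fin k → ℚ) (h : ∀ i, (g i : ℚ) = ∑ m ∈ s, Lg s m i * b m) : PolySeq k e g := by
  refine ⟨Lagrange.interpolate s nd b, ?_, fun i => ?_⟩
  · have := Lagrange.degree_interpolate_lt (s := s) (v := nd) (r := b) nd_inj.injOn
    rw [hs] at this
    by_cases h0 : Lagrange.interpolate s nd b = 0
    · rw [h0]; simp
    · exact Nat.lt_succ_iff.1 ((natDegree_lt_iff_degree_lt h0).2 this)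
  · rw [h i, Lagrange.interpolate_apply, eval_finset_sum]
    refine Finset.sum_congr rfl (fun m _ => ?_)
    rw [eval_mul, eval_C, Lg, mul_comm]

/-- Changing the values at the nodes by multiples of `R q` changes all values by multiples
of `q`. -/
theorem reduce {e : ℕ} {f : Fin k → ℤ} (hf : PolySeq k e f) {s : Finset (Fin k)}
    (hs : s.card = e + 1) {R q : ℤ} (hR : ∀ m ∈ s, den s m ∣ R) (U : Fin k → ℤ)
    (hU : ∀ m ∈ s, R * q ∣ U m - f m) (i : Fin k) :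
    ∃ F : ℤ, (F : ℚ) = ∑ m ∈ s, Lg s m i * U m ∧ q ∣ F - f i := by
  classical
  have h1 : ∀ m ∈ s, ∃ y : ℤ, Lg s m i * U m = Lg s m i * f m + q * y := by
    intro m hm
    obtain ⟨z, hz⟩ := int_Lg s m i (hR m hm)
    obtain ⟨n, hn⟩ := hU m hm
    refine ⟨z * n, ?_⟩
    have : (U m : ℚ) = f m + R * q * n := by
      have : U m = f m + R * q * n := by linarith
      exact_mod_cast this
    rw [this]
    push_cast
    linear_combination (q : ℚ) * n * hz
  choose! y hy using h1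
  refine ⟨f i + q * ∑ m ∈ s, y m, ?_, ⟨∑ m ∈ s, y m, by ring⟩⟩
  rw [Finset.sum_congr rfl hy, Finset.sum_add_distrib, ← interp hf hs i, ← Finset.mul_sum]
  push_cast
  rfl

theorem abs_sum_Lg {e : ℕ} {s : Finset (Fin k)} (hs : s.card = e + 1) (i : Fin k) (b : Fin k → ℚ)
    (β : ℚ) (hb : ∀ m ∈ s, |b m| ≤ β) :
    |∑ m ∈ s, Lg s m i * b m| ≤ (e + 1) * (k : ℚ) ^ e * β := by
  refine (Finset.abs_sum_le_sum_abs _ _).trans ?_
  have : ∀ m ∈ s, |Lg s m i * b m| ≤ (k : ℚ) ^ e * β := by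
    intro m hm
    rw [abs_mul]
    exact mul_le_mul (abs_Lg hs hm i) (hb m hm) (abs_nonneg _) (by positivity)
  refine (Finset.sum_le_sum this).trans (le_of_eq ?_)
  rw [Finset.sum_const, hs, nsmul_eq_mul]
  push_cast; ring

theorem zero_of_roots {e : ℕ} {P : ℚ[X]} (hP : P.natDegree ≤ e) (s : Finset (Fin k))
    (hs : e < s.card) (h : ∀ i ∈ s, P.eval (nd i) = 0) : P = 0 := by
  refine Polynomial.eq_zero_of_degree_lt_of_eval_index_eq_zero s nd_inj.injOn ?_ h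
  exact lt_of_le_of_lt degree_le_natDegree (by exact_mod_cast lt_of_le_of_lt hP hs)

theorem fibre_le {e : ℕ} {f : Fin k → ℤ} (hf : PolySeq k e f) (hn : ∃ i i', f i ≠ f i') (v : ℤ) :
    ((univ : Finset (Fin k)).filter (fun i => f i = v)).card ≤ e := by
  obtain ⟨P, hP, hv⟩ := hf
  by_contra hlt
  push Not at hlt
  have h0 : P - C (v : ℚ) = 0 := by
    refine zero_of_roots (e := e) (by rwa [natDegree_sub_C]) _ hlt (fun i hi => ?_)
    rw [eval_sub, eval_C, ← hv i, (Finset.mem_filter.1 hi).2, sub_self]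
  have h1 : ∀ i, f i = v := by
    intro i
    have := hv i
    rw [sub_eq_zero.1 h0, eval_C] at this
    exact_mod_cast this
  obtain ⟨i, i', h⟩ := hn
  exact h ((h1 i).trans (h1 i').symm)

theorem polySeq_sq {e D : ℕ} {Y : Fin D → Fin k → ℤ} (hY : ∀ j, PolySeq k e (Y j)) :
    PolySeq k (2 * e) (fun i => ∑ j, Y j i ^ 2) := by
  choose P hP hv using hY
  refine ⟨∑ j, P j ^ 2, ?_, fun i => ?_⟩
  · refine natDegree_sum_le_of_forall_le _ _ (fun j _ => ?_)
    exact natDegree_pow_le.trans (Nat.mul_le_mul_left _ (hP j))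
  · rw [eval_finset_sum]
    push_cast
    exact Finset.sum_congr rfl (fun j _ => by rw [eval_pow, hv])

theorem const_of_sq {e D : ℕ} (hk : 2 * e < k) {Y : Fin D → Fin k → ℤ}
    (hY : ∀ j, PolySeq k e (Y j)) (hc : ∀ i i', ∑ j, Y j i ^ 2 = ∑ j, Y j i' ^ 2)
    (j : Fin D) (i i' : Fin k) : Y j i = Y j i' := by
  choose P hP hv using hY
  have h0 : ∑ j, P j ^ 2 - C ((∑ j, Y j i ^ 2 : ℤ) : ℚ) = 0 := by
    refine zero_of_roots (e := 2 * e) ?_ univ (by simpa using hk) (fun x _ => ?_)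
    · rw [natDegree_sub_C]
      refine natDegree_sum_le_of_forall_le _ _ (fun j _ => ?_)
      exact natDegree_pow_le.trans (Nat.mul_le_mul_left _ (hP j))
    · rw [eval_sub, eval_C, hc i x, eval_finset_sum, sub_eq_zero]
      push_cast
      exact Finset.sum_congr rfl (fun j _ => by rw [eval_pow, hv])
  obtain ⟨j0, -, hj0⟩ := Finset.exists_max_image univ (fun j => (P j).natDegree) ⟨j, mem_univ _⟩
  have hn : (P j0).natDegree = 0 := by
    by_contra hne
    have h1 := congrArg (fun Q : ℚ[X] => Q.coeff (2 * (P j0).natDegree)) (sub_eq_zero.1 h0)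
    simp only [finset_sum_coeff] at h1
    rw [coeff_C_ne_zero (by omega),
      Finset.sum_congr rfl (fun x _ => coeff_pow_of_natDegree_le (hj0 x (mem_univ _)))] at h1
    have h2 := (Finset.sum_eq_zero_iff_of_nonneg (fun x _ => sq_nonneg _)).1 h1 j0 (mem_univ _)
    have h3 : (P j0).leadingCoeff = 0 := pow_eq_zero_iff (two_ne_zero) |>.1 h2
    rw [leadingCoeff_eq_zero.1 h3] at hne
    exact hne natDegree_zero
  have h4 : (P j).natDegree = 0 := by have := hj0 j (mem_univ _); omega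
  have h5 := eq_C_of_natDegree_eq_zero h4
  have a := hv j i
  have b := hv j i'
  rw [h5, eval_C] at a b
  exact_mod_cast a.trans b.symm

/-- A large class contains `e + 1` indices in a window of length `w`. -/
theorem window {V : Type*} [DecidableEq V] {e w : ℕ} (hw : 0 < w) (π : Fin k → V) (v : V)
    (h : (k / w + 1) * e < ((univ : Finset (Fin k)).filter (fun i => π i = v)).card) :
    ∃ s : Finset (Fin k), s.card = e + 1 ∧ (∀ m ∈ s, π m = v) ∧
      ∀ m ∈ s, ∀ t ∈ s, |((m : ℕ) : ℤ) - ((t : ℕ) : ℤ)| ≤ w := by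
  obtain ⟨y, -, hy⟩ := Finset.exists_lt_card_fiber_of_mul_lt_card_of_maps_to
    (s := (univ : Finset (Fin k)).filter (fun i => π i = v)) (t := Finset.range (k / w + 1))
    (f := fun i : Fin k => (i : ℕ) / w) (n := e)
    (fun i _ => Finset.mem_range.2 (Nat.lt_succ_of_le (Nat.div_le_div_right i.2.le)))
    (by rwa [Finset.card_range])
  obtain ⟨s, hs1, hs2⟩ := Finset.exists_subset_card_eq (Nat.succ_le_of_lt hy)
  refine ⟨s, hs2, fun m hm => (Finset.mem_filter.1 (Finset.mem_filter.1 (hs1 hm)).1).2,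
    fun m hm t ht => ?_⟩
  have a1 : (m : ℕ) / w = y := (Finset.mem_filter.1 (hs1 hm)).2
  have a2 : (t : ℕ) / w = y := (Finset.mem_filter.1 (hs1 ht)).2
  have b1 := Nat.div_add_mod (m : ℕ) w
  have b2 := Nat.div_add_mod (t : ℕ) w
  have c1 := Nat.mod_lt (m : ℕ) hw
  have c2 := Nat.mod_lt (t : ℕ) hw
  rw [a1] at b1
  rw [a2] at b2
  generalize w * y = z at b1 b2
  rw [abs_le]; constructor <;> omega

/-- Small classes: many values. -/
theorem image_ge {V : Type*} [DecidableEq V] {b h : ℕ} (π : Fin k → V) (hb : h * b ≤ k)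
    (hk : 0 < k) (hc : ∀ v, ((univ : Finset (Fin k)).filter (fun i => π i = v)).card ≤ b) :
    h ≤ ((univ : Finset (Fin k)).image π).card := by
  have h1 := Finset.card_le_mul_card_image (f := π) (univ : Finset (Fin k)) b (fun v _ => hc v)
  rw [Finset.card_univ, Fintype.card_fin] at h1
  have hb0 : 0 < b := Nat.pos_of_ne_zero (fun h0 => by rw [h0] at h1; omega)
  exact Nat.le_of_mul_le_mul_right (hb.trans (h1.trans (le_of_eq (mul_comm _ _)))) hb0

end Pool.Agent.MP_a31471_co.ex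

end MrgPart2

-- ======== part 3: formerly Pool.Agent.MP_a31471_co.ex.Lab
section MrgPart3

/-!
Labels of one coordinate along polynomial sequences.
-/

set_option autoImplicit false

namespace Pool.Agent.MP_a31471_co.ex

open Finset

/-- One coordinate: a period and a mesh. -/
structure Co (W Λ : ℕ) where
  q : ℕ
  K : ℤ → ℤ
  q_pos : 0 < q
  mesh : sx.Mesh q W Λ K

namespace Co

variable {W Λ : ℕ} (C : Co W Λ) (lam : ℕ)

/-- The label. -/
def lab (x : ℤ) : ZMod (lam * Λ) := ((C.K (lam * x) : ℤ) : ZMod (lam * Λ))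

/-- The dilated coordinate. -/
def Y (x : ℤ) : ℤ := (lam * x) % C.q

theorem qp : (0 : ℤ) < C.q := by exact_mod_cast C.q_pos

theorem lab_congr {x x' : ℤ} (h : (C.q : ℤ) ∣ x - x') : C.lab lam x = C.lab lam x' := by
  obtain ⟨n, hn⟩ := h
  have e : (lam : ℤ) * x = lam * x' + (lam * n) * C.q := by linear_combination (lam : ℤ) * hn
  unfold lab
  rw [e, C.mesh.shift]
  have : ((lam : ℤ) * n * Λ : ℤ) = n * ((lam * Λ : ℕ) : ℤ) := by push_cast; ring
  rw [this, Int.cast_add, Int.cast_mul, Int.cast_natCast, ZMod.natCast_self, mul_zero, add_zero]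

theorem Y_nonneg (x : ℤ) : 0 ≤ C.Y lam x := Int.emod_nonneg _ C.qp.ne'

theorem Y_lt (x : ℤ) : C.Y lam x < C.q := Int.emod_lt_of_pos _ C.qp

theorem close (hl : 0 < lam) (hΛ : 0 < Λ) {x x' : ℤ} (h : C.lab lam x = C.lab lam x') :
    lam * (x % C.q - x' % C.q) = C.Y lam x - C.Y lam x' ∧
    (W : ℤ) * |C.Y lam x - C.Y lam x'| < 2 * (C.Y lam x + 1) ∧
    (W : ℤ) * |C.Y lam x - C.Y lam x'| < 2 * (C.q - C.Y lam x) := by
  have hq := C.qp
  have hl' : (0 : ℤ) < lam := by exact_mod_cast hl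
  have hΛ' : (0 : ℤ) < Λ := by exact_mod_cast hΛ
  have red : ∀ x : ℤ, C.lab lam x = C.lab lam (x % C.q) := fun x =>
    C.lab_congr lam Int.dvd_self_sub_emod
  have range : ∀ x : ℤ, 0 ≤ C.K (lam * (x % C.q)) ∧
      C.K (lam * (x % C.q)) < ((lam * Λ : ℕ) : ℤ) := by
    intro x
    have h0 := Int.emod_nonneg x hq.ne'
    have h1 := Int.emod_lt_of_pos x hq
    have a1 := C.mesh.lower (lam * (x % C.q))
    have a2 := C.mesh.upper (lam * (x % C.q))
    have b1 : 0 ≤ (lam * (x % C.q) : ℤ) / C.q := Int.ediv_nonneg (by positivity) hq.le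
    have b2 : (lam * (x % C.q) : ℤ) / C.q < lam := by
      rw [Int.ediv_lt_iff_lt_mul hq]
      nlinarith
    refine ⟨le_trans (by positivity) a1, lt_of_lt_of_le a2 ?_⟩
    push_cast
    have : (lam * (x % C.q) : ℤ) / C.q + 1 ≤ lam := b2
    nlinarith
  rw [red x, red x'] at h
  unfold lab at h
  rw [ZMod.intCast_eq_intCast_iff', Int.emod_eq_of_lt (range x).1 (range x).2,
    Int.emod_eq_of_lt (range x').1 (range x').2] at h
  have Yr : ∀ x : ℤ, C.Y lam x = (lam * (x % C.q)) % C.q := fun x => by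
    unfold Y
    simp [Int.mul_emod]
  obtain ⟨h1, h2, h3⟩ := C.mesh.close _ _ h
  have e1 := Int.emod_add_mul_ediv (lam * (x % C.q)) C.q
  have e2 := Int.emod_add_mul_ediv (lam * (x' % C.q)) C.q
  rw [← Yr] at e1 e2 h2 h3
  have e : lam * (x % C.q) - lam * (x' % C.q) = C.Y lam x - C.Y lam x' := by
    rw [h1] at e1; linarith
  rw [e] at h2 h3
  exact ⟨by linarith, h2, h3⟩

theorem floor_mono : Monotone (fun x : ℚ => C.K ⌊x⌋) :=
  fun _ _ h => C.mesh.mono (Int.floor_mono h)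

theorem K_window (hΛ : 0 < Λ) (Z a b : ℤ) (h1 : a * C.q ≤ Z) (h2 : Z < b * C.q) :
    a * Λ ≤ C.K Z ∧ C.K Z < b * Λ := by
  have hq := C.qp
  have hΛ' : (0 : ℤ) < Λ := by exact_mod_cast hΛ
  have a1 := C.mesh.lower Z
  have a2 := C.mesh.upper Z
  have g1 : a ≤ Z / C.q := (Int.le_ediv_iff_mul_le hq).2 h1
  have g2 : Z / C.q + 1 ≤ b := (Int.ediv_lt_iff_lt_mul hq).2 h2
  constructor <;> nlinarith

variable {k e : ℕ}

/-- All patterns of one coordinate. -/
theorem card_all (hl : 0 < lam) (hΛ : 0 < Λ) {s : Finset (Fin k)} (hs : s.card = e + 1)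
    (hd : ∀ m ∈ s, den s m ∣ (lam : ℤ)) (R : Finset (Fin k → ZMod (lam * Λ)))
    (hR : ∀ ρ ∈ R, ∃ f, PolySeq k e f ∧ ∀ i, ρ i = C.lab lam (f i)) :
    R.card ≤ (k * ((2 * ((e + 1) * k ^ e * lam ^ 2) + 1) * Λ) + 1) ^ (e + 1) := by
  have hq := C.qp
  have hl' : (0 : ℤ) < lam := by exact_mod_cast hl
  set A : ℕ := (e + 1) * k ^ e * lam ^ 2 with hA
  have := card_patterns_pow (ι := s) k ((2 * A + 1) * Λ) _ C.floor_mono
    (fun i m => (lam : ℚ) * Lg s m i) (fun _ => -(A : ℤ) * Λ) (fun z => (z : ZMod (lam * Λ))) R ?_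
  · rwa [Fintype.card_coe, hs] at this
  intro ρ hρ
  obtain ⟨f, hf, hρ'⟩ := hR ρ hρ
  have hlq : (0 : ℤ) < lam * C.q := by positivity
  have key := fun i => reduce hf hs (R := lam) (q := C.q) hd (fun m => f m % (lam * C.q))
    (fun m _ => Int.dvd_emod_sub_self) i
  choose F hF hF' using key
  have hz : ∀ i, ∑ m : s, (lam : ℚ) * Lg s m i * ((f m % (lam * C.q) : ℤ) : ℚ)
      = ((lam * F i : ℤ) : ℚ) := by
    intro i
    rw [Finset.sum_coe_sort s (fun m => (lam : ℚ) * Lg s m i * ((f m % (lam * C.q) : ℤ) : ℚ)),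
      Int.cast_mul, hF i, Finset.mul_sum]
    exact Finset.sum_congr rfl (fun m _ => by push_cast; ring)
  refine ⟨fun m => ((f m % (lam * C.q) : ℤ) : ℚ), fun i => ?_, fun i => ?_⟩
  · simp only [hz i, Int.floor_intCast]
    have h1 := abs_sum_Lg hs i (fun m => ((f m % (lam * C.q) : ℤ) : ℚ)) ((lam * C.q : ℤ) : ℚ)
      (fun m _ => by
        have a := Int.emod_nonneg (f m) hlq.ne'
        have b := Int.emod_lt_of_pos (f m) hlq
        rw [← Int.cast_abs, abs_of_nonneg a]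
        exact_mod_cast b.le)
    rw [← hF i] at h1
    have h2 : |F i| ≤ (e + 1) * (k : ℤ) ^ e * (lam * C.q) := by exact_mod_cast h1
    have h3 : |(lam : ℤ) * F i| ≤ A * C.q := by
      rw [abs_mul, abs_of_pos hl', hA]
      push_cast
      nlinarith [mul_le_mul_of_nonneg_left h2 hl'.le]
    have h4 := abs_le.1 h3
    have := C.K_window hΛ (lam * F i) (-A) (A + 1) (by linarith) (by linarith)
    refine ⟨this.1, lt_of_lt_of_le this.2 (le_of_eq ?_)⟩
    push_cast; ring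
  · simp only [hz i, Int.floor_intCast]
    rw [hρ' i, ← C.lab_congr lam (hF' i)]
    rfl

theorem small (hk : 0 < k) (hW : W = 2 * ((e + 1) * k ^ e)) {s : Finset (Fin k)}
    (hs : s.card = e + 1) (i : Fin k) (b : Fin k → ℤ) (μ : ℤ)
    (hb : ∀ m ∈ s, (W : ℤ) * |b m| < 2 * μ) : |∑ m ∈ s, Lg s m i * b m| < μ := by
  have hB : (0 : ℚ) < (e + 1) * (k : ℚ) ^ e := by positivity
  have hW' : (W : ℚ) = 2 * ((e + 1) * (k : ℚ) ^ e) := by rw [hW]; push_cast; ring
  have h1 := abs_sum_Lg hs i (fun m => (b m : ℚ)) ((2 * μ - 1) / W) (fun m hm => by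
    have a : (W : ℤ) * |b m| ≤ 2 * μ - 1 := by have := hb m hm; omega
    have a' : (W : ℚ) * |(b m : ℚ)| ≤ 2 * μ - 1 := by exact_mod_cast a
    rw [le_div_iff₀ (by rw [hW']; positivity)]
    linarith)
  refine lt_of_le_of_lt h1 ?_
  rw [hW']
  have : (e + 1) * (k : ℚ) ^ e * ((2 * μ - 1) / (2 * ((e + 1) * (k : ℚ) ^ e))) = (2 * μ - 1) / 2 := by
    field_simp
  rw [this]
  linarith

/-- Patterns with a class that contains given nodes, through a given label. -/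
theorem card_nodes (hl : 0 < lam) (hΛ : 0 < Λ) (hk : 0 < k) (hW : W = 2 * ((e + 1) * k ^ e))
    {s : Finset (Fin k)} (hs : s.card = e + 1) {Rr : ℤ} (hd : ∀ m ∈ s, den s m ∣ Rr)
    (t : Fin k → ℤ) (i0 : Fin k) (x0 : ℤ) (R : Finset (Fin k → ZMod (lam * Λ)))
    (hR : ∀ ρ ∈ R, ∃ f, PolySeq k e f ∧ (∀ i, ρ i = C.lab lam (f i)) ∧
      (∀ m ∈ s, ∀ m' ∈ s, ρ m = ρ m') ∧ ρ i0 = C.lab lam x0 ∧
      ∀ m ∈ s, t m = (f m / C.q) % Rr) :
    R.card ≤ (k * (7 * Λ) + 1) ^ (e + 1) := by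
  have hq := C.qp
  have hq' : (0 : ℚ) < C.q := by exact_mod_cast C.q_pos
  have hne : s.Nonempty := Finset.card_pos.1 (by omega)
  obtain ⟨m0, hm0⟩ := hne
  let τ : Fin k → ℚ := fun i => ∑ m ∈ s, Lg s m i * t m
  let cn : Fin k → ℚ := fun i => lam * ((x0 % C.q : ℤ) : ℚ) + lam * C.q * (τ i - τ i0)
  have := card_patterns_pow (ι := s) k (7 * Λ) _ C.floor_mono
    (fun i m => (lam : ℚ) * Lg s m i) (fun i => (⌊cn i / C.q⌋ - 3) * Λ)
    (fun z => (z : ZMod (lam * Λ))) R ?_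
  · rwa [Fintype.card_coe, hs] at this
  intro ρ hρ
  obtain ⟨f, hf, hρ', hcl, h0, ht⟩ := hR ρ hρ
  have key := fun i => reduce hf hs (R := Rr) (q := C.q) hd (fun m => f m % C.q + C.q * t m)
    (fun m hm => by
      have e1 := Int.emod_add_mul_ediv (f m) C.q
      have e2 := Int.emod_add_mul_ediv (f m / C.q) Rr
      refine ⟨-(f m / C.q / Rr), ?_⟩
      rw [ht m hm]
      linear_combination e1 + (C.q : ℤ) * e2) i
  choose F hF hF' using key
  obtain ⟨n, hn⟩ : (C.q : ℤ) ∣ F i0 - f i0 % C.q := by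
    have := dvd_add (hF' i0) (Int.dvd_self_sub_emod (x := f i0) (m := C.q))
    simpa using this
  have hz : ∀ i, ∑ m : s, (lam : ℚ) * Lg s m i * ((f m % C.q + C.q * t m - C.q * n : ℤ) : ℚ)
      = ((lam * (F i - C.q * n) : ℤ) : ℚ) := by
    intro i
    rw [Finset.sum_coe_sort s
      (fun m => (lam : ℚ) * Lg s m i * ((f m % C.q + C.q * t m - C.q * n : ℤ) : ℚ))]
    have h1 := sum_Lg ⟨m0, hm0⟩ i
    have h2 : ∀ m ∈ s, (lam : ℚ) * Lg s m i * ((f m % C.q + C.q * t m - C.q * n : ℤ) : ℚ)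
        = lam * (Lg s m i * ((f m % C.q + C.q * t m : ℤ) : ℚ)) - lam * C.q * n * Lg s m i := by
      intro m _
      rw [Int.cast_sub, Int.cast_mul, Int.cast_natCast]
      ring
    rw [Finset.sum_congr rfl h2, Finset.sum_sub_distrib, ← Finset.mul_sum, ← Finset.mul_sum,
      ← hF i, h1]
    push_cast; ring
  refine ⟨fun m => ((f m % C.q + C.q * t m - C.q * n : ℤ) : ℚ), fun i => ?_, fun i => ?_⟩
  · simp only [hz i, Int.floor_intCast]
    let σ : Fin k → ℚ := fun i => ∑ m ∈ s, Lg s m i * ((C.Y lam (f m0) - C.Y lam (f m) : ℤ) : ℚ)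
    have hcl' : ∀ m ∈ s, C.lab lam (f m0) = C.lab lam (f m) := fun m hm => by
      rw [← hρ', ← hρ']; exact hcl m0 hm0 m hm
    have hσ : ∀ i, |σ i| < ((C.q : ℤ) : ℚ) := fun i =>
      small hk hW hs i _ C.q (fun m hm => by
        have := (C.close lam hl hΛ (hcl' m hm)).2.2
        have := C.Y_nonneg lam (f m0)
        linarith)
    have hFe : ∀ i, (lam : ℚ) * F i
        = lam * ((f m0 % C.q : ℤ) : ℚ) - σ i + lam * C.q * τ i := by
      intro i
      have h1 := sum_Lg ⟨m0, hm0⟩ i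
      have h2 : ∀ m ∈ s, (lam : ℚ) * (Lg s m i * ((f m % C.q + C.q * t m : ℤ) : ℚ))
          = lam * ((f m0 % C.q : ℤ) : ℚ) * Lg s m i
            - Lg s m i * ((C.Y lam (f m0) - C.Y lam (f m) : ℤ) : ℚ)
            + lam * C.q * (Lg s m i * t m) := by
        intro m hm
        rw [← (C.close lam hl hΛ (hcl' m hm)).1, Int.cast_add, Int.cast_mul, Int.cast_mul,
          Int.cast_sub, Int.cast_natCast, Int.cast_natCast]
        ring
      rw [hF i, Finset.mul_sum, Finset.sum_congr rfl h2, Finset.sum_add_distrib,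
        Finset.sum_sub_distrib, ← Finset.mul_sum, ← Finset.mul_sum, h1, mul_one]
    have hx : |(lam : ℤ) * (f i0 % C.q - x0 % C.q)| ≤ C.q := by
      obtain ⟨c1, -, c3⟩ := C.close lam hl hΛ ((hρ' i0).symm.trans h0)
      rw [c1]
      have a1 := C.Y_nonneg lam (f i0)
      have a2 := C.Y_lt lam (f i0)
      have a3 := C.Y_nonneg lam x0
      have a4 := C.Y_lt lam x0
      rw [abs_le]; constructor <;> linarith
    have hx' : |(lam : ℚ) * (((f i0 % C.q : ℤ) : ℚ) - ((x0 % C.q : ℤ) : ℚ))| ≤ C.q := by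
      exact_mod_cast hx
    have hn' : (F i0 : ℚ) - ((f i0 % C.q : ℤ) : ℚ) = C.q * n := by exact_mod_cast hn
    have hZ : ((lam * (F i - C.q * n) : ℤ) : ℚ) - cn i
        = lam * (((f i0 % C.q : ℤ) : ℚ) - ((x0 % C.q : ℤ) : ℚ)) - σ i + σ i0 := by
      rw [Int.cast_mul, Int.cast_sub, Int.cast_mul, Int.cast_natCast, Int.cast_natCast]
      simp only [cn]
      linear_combination hFe i - hFe i0 + (lam : ℚ) * hn'
    have b1 := abs_lt.1 (hσ i)
    have b2 := abs_lt.1 (hσ i0)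
    have b3 := abs_le.1 hx'
    rw [Int.cast_natCast] at b1 b2
    have c1 : ((⌊cn i / C.q⌋ : ℤ) : ℚ) * C.q ≤ cn i := by
      rw [← le_div_iff₀ hq']; exact Int.floor_le _
    have c2 : cn i < (((⌊cn i / C.q⌋ : ℤ) : ℚ) + 1) * C.q := by
      rw [← div_lt_iff₀ hq']; exact Int.lt_floor_add_one _
    have := C.K_window hΛ (lam * (F i - C.q * n)) (⌊cn i / C.q⌋ - 3) (⌊cn i / C.q⌋ + 4)
      (by
        have : (((⌊cn i / C.q⌋ - 3) * C.q : ℤ) : ℚ) ≤ ((lam * (F i - C.q * n) : ℤ) : ℚ) := by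
          rw [Int.cast_mul, Int.cast_sub, Int.cast_natCast, Int.cast_ofNat]
          linarith
        exact_mod_cast this)
      (by
        have : ((lam * (F i - C.q * n) : ℤ) : ℚ) < (((⌊cn i / C.q⌋ + 4) * C.q : ℤ) : ℚ) := by
          rw [Int.cast_mul (⌊cn i / C.q⌋ + 4), Int.cast_add, Int.cast_natCast, Int.cast_ofNat]
          linarith
        exact_mod_cast this)
    refine ⟨this.1, lt_of_lt_of_le this.2 (le_of_eq ?_)⟩
    push_cast; ring
  · simp only [hz i, Int.floor_intCast]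
    have : (C.q : ℤ) ∣ (F i - C.q * n) - f i := by
      have e0 : (F i - C.q * n) - f i = F i - f i - C.q * n := by ring
      rw [e0]
      exact dvd_sub (hF' i) (Dvd.intro n rfl)
    rw [hρ' i, ← C.lab_congr lam this]
    rfl

/-- A class that contains nodes in a short window: the dilated coordinate is polynomial. -/
theorem poly_Y (hl : 0 < lam) (hΛ : 0 < Λ) (hk : 0 < k) (hW : W = 2 * ((e + 1) * k ^ e))
    {s : Finset (Fin k)} (hs : s.card = e + 1) (hd : ∀ m ∈ s, den s m ∣ (lam : ℤ))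
    {f : Fin k → ℤ} (hf : PolySeq k e f)
    (hcl : ∀ m ∈ s, ∀ m' ∈ s, C.lab lam (f m) = C.lab lam (f m')) :
    PolySeq k e (fun i => C.Y lam (f i)) := by
  classical
  have hq := C.qp
  have hne : s.Nonempty := Finset.card_pos.1 (by omega)
  obtain ⟨m0, hm0⟩ := hne
  refine polySeq_of_Lg hs _ (fun m => (C.Y lam (f m) : ℚ)) (fun i => ?_)
  have hz := fun m (hm : m ∈ s) => int_Lg s m i (hd m hm)
  choose! z hz using hz
  have h1 := sum_Lg ⟨m0, hm0⟩ i
  have cl := fun m (hm : m ∈ s) => C.close lam hl hΛ (hcl m0 hm0 m hm)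
  set y : ℤ := ∑ m ∈ s, z m * (f m0 % C.q - f m % C.q) with hy
  have e1 : ∑ m ∈ s, Lg s m i * ((C.Y lam (f m0) - C.Y lam (f m) : ℤ) : ℚ) = y := by
    rw [hy, Int.cast_sum]
    refine Finset.sum_congr rfl (fun m hm => ?_)
    rw [← (cl m hm).1, Int.cast_mul, Int.cast_mul, ← hz m hm, Int.cast_natCast]
    ring
  have s1 := small hk hW hs i (fun m => C.Y lam (f m0) - C.Y lam (f m)) _
    (fun m hm => (cl m hm).2.1)
  have s2 := small hk hW hs i (fun m => C.Y lam (f m0) - C.Y lam (f m)) _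
    (fun m hm => (cl m hm).2.2)
  rw [e1] at s1 s2
  have s1' : |y| < C.Y lam (f m0) + 1 := by exact_mod_cast s1
  have s2' : |y| < C.q - C.Y lam (f m0) := by exact_mod_cast s2
  have e2 : ∑ m ∈ s, Lg s m i * (C.Y lam (f m) : ℚ) = ((C.Y lam (f m0) - y : ℤ) : ℚ) := by
    rw [Int.cast_sub, ← e1]
    have : ∀ m ∈ s, Lg s m i * (C.Y lam (f m) : ℚ) = C.Y lam (f m0) * Lg s m i
        - Lg s m i * ((C.Y lam (f m0) - C.Y lam (f m) : ℤ) : ℚ) := by
      intro m _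
      push_cast; ring
    rw [Finset.sum_congr rfl this, Finset.sum_sub_distrib, ← Finset.mul_sum, h1, mul_one]
  rw [e2]
  have e3 : (lam : ℤ) * f i = ∑ m ∈ s, z m * f m := by
    have : ((lam * f i : ℤ) : ℚ) = ((∑ m ∈ s, z m * f m : ℤ) : ℚ) := by
      rw [Int.cast_mul, interp hf hs i, Finset.mul_sum, Int.cast_sum]
      refine Finset.sum_congr rfl (fun m hm => ?_)
      rw [Int.cast_mul, ← hz m hm, Int.cast_natCast]
      ring
    exact_mod_cast this
  have e4 : ∑ m ∈ s, z m = lam := by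
    have : ((∑ m ∈ s, z m : ℤ) : ℚ) = ((lam : ℤ) : ℚ) := by
      rw [Int.cast_sum, ← Finset.sum_congr rfl hz, ← Finset.mul_sum, h1, mul_one]
    exact_mod_cast this
  have d1 : (C.q : ℤ) ∣ lam * f i - (C.Y lam (f m0) - y) := by
    have a1 : (C.q : ℤ) ∣ ∑ m ∈ s, z m * (f m - f m % C.q) :=
      Finset.dvd_sum (fun m _ => Dvd.dvd.mul_left Int.dvd_self_sub_emod _)
    have a2 : (C.q : ℤ) ∣ lam * f m0 - C.Y lam (f m0) := Int.dvd_self_sub_emod
    have a3 : (C.q : ℤ) ∣ lam * (f m0 - f m0 % C.q) := Dvd.dvd.mul_left Int.dvd_self_sub_emod _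
    have a4 : y = lam * (f m0 % C.q) - ∑ m ∈ s, z m * (f m % C.q) := by
      rw [hy, ← e4, Finset.sum_mul, ← Finset.sum_sub_distrib]
      exact Finset.sum_congr rfl (fun m _ => by ring)
    have a5 : ∑ m ∈ s, z m * (f m - f m % C.q)
        = ∑ m ∈ s, z m * f m - ∑ m ∈ s, z m * (f m % C.q) := by
      rw [← Finset.sum_sub_distrib]
      exact Finset.sum_congr rfl (fun m _ => by ring)
    have e0 : lam * f i - (C.Y lam (f m0) - y) = ∑ m ∈ s, z m * (f m - f m % C.q)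
        + (lam * f m0 - C.Y lam (f m0)) - lam * (f m0 - f m0 % C.q) := by
      rw [a5, e3]
      linear_combination a4
    rw [e0]
    exact dvd_sub (dvd_add a1 a2) a3
  have b1 := abs_lt.1 s1'
  have b2 := abs_lt.1 s2'
  have : C.Y lam (f i) = C.Y lam (f m0) - y := by
    have h2 : (lam * f i) % C.q = (C.Y lam (f m0) - y) % C.q :=
      (Int.modEq_iff_dvd.2 d1).symm
    rw [Int.emod_eq_of_lt (a := C.Y lam (f m0) - y) (by omega) (by omega)] at h2
    exact h2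
  rw [this]

end Co

end Pool.Agent.MP_a31471_co.ex

end MrgPart3

-- ======== part 4: formerly Pool.Agent.MP_a31471_co.ex.Step
section MrgPart4

/-!
Systems of letters that meet every polynomial sequence: the last level and the step from
degree `2 e` to degree `e`.
-/

set_option autoImplicit false

namespace Pool.Agent.MP_a31471_co.ex

open Finset

/-- `L` levels of letters meet every non-constant sequence with values in `[0, M)`. -/
def Win (k e M L r : ℕ) : Prop :=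
  ∃ ξ : ℤ → Fin L → Fin r, ∀ f : Fin k → ℤ, PolySeq k e f → (∀ i, 0 ≤ f i ∧ f i < M) →
    (∃ i i', f i ≠ f i') → ∀ c, ∃ i l, ξ (f i) l = c

/-- `L` levels of letters meet every sequence that is not constant modulo `N`. -/
def Cyc (k e N L r : ℕ) : Prop :=
  ∃ ξ : ℤ → Fin L → Fin r, ∀ f : Fin k → ℤ, PolySeq k e f →
    (∃ i i', ¬ (N : ℤ) ∣ f i - f i') → ∀ c, ∃ i l, ξ (f i) l = c

theorem Cyc.win {k e N L r M : ℕ} (h : Cyc k e N L r) (hM : M ≤ N) : Win k e M L r := by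
  obtain ⟨ξ, hξ⟩ := h
  refine ⟨ξ, fun f hf hb ⟨i, i', hne⟩ => hξ f hf ⟨i, i', fun hd => hne ?_⟩⟩
  have a := hb i
  have b := hb i'
  have hM' : (M : ℤ) ≤ N := by exact_mod_cast hM
  have := Int.eq_zero_of_abs_lt_dvd hd (by rw [abs_lt]; constructor <;> omega)
  omega

theorem base {k e M r h : ℕ} (hk : e + 1 ≤ k) (hr : 1 ≤ r) (hh : h * e ≤ k)
    (hs : (M : ℝ) ^ (e + 1) * (r * (1 - 1 / (r : ℝ)) ^ h) ≤ 1 / 4) : Win k e M 1 r := by
  classical
  have hk0 : 0 < k := by omega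
  let Pat : Finset (Fin k → Fin M) := univ.filter
    (fun π => PolySeq k e (fun i => ((π i : ℕ) : ℤ)) ∧ ∃ i i', π i ≠ π i')
  have him : ∀ π ∈ Pat, h ≤ (univ.image π).card := by
    intro π hπ
    obtain ⟨p1, i, i', p2⟩ := (Finset.mem_filter.1 hπ).2
    refine image_ge π hh hk0 (fun v => ?_)
    refine le_trans (le_of_eq ?_) (fibre_le p1 ⟨i, i', fun e => p2 (Fin.ext (by exact_mod_cast e))⟩
      ((v : ℕ) : ℤ))
    congr 1
    ext x
    simp only [Finset.mem_filter, Finset.mem_univ, true_and, Nat.cast_inj, Fin.ext_iff]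
  obtain ⟨s, -, hs'⟩ := Finset.exists_subset_card_eq (s := (univ : Finset (Fin k))) (n := e + 1)
    (by simpa using hk)
  have hcard : Pat.card ≤ M ^ (e + 1) := by
    have : Pat.card ≤ (univ : Finset (s → Fin M)).card := by
      refine Finset.card_le_card_of_injOn (fun π m => π m) (fun _ _ => by simp) ?_
      intro π hπ π' hπ' he
      have p1 := (Finset.mem_filter.1 (Finset.mem_coe.1 hπ)).2.1
      have p2 := (Finset.mem_filter.1 (Finset.mem_coe.1 hπ')).2.1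
      funext i
      have a := interp p1 hs' i
      have b := interp p2 hs' i
      rw [Finset.sum_congr rfl (fun m hm => by
        rw [show π m = π' m from congrFun he ⟨m, hm⟩]), ← b] at a
      exact Fin.ext (by exact_mod_cast a)
    simpa [hs'] using this
  obtain ⟨φ, hφ⟩ := letters (h := h) (h1 := h) hk0 hr Pat ∅ ((M : ℝ) ^ (e + 1)) 0 le_rfl him
    (fun π hπ _ => him π hπ) (by exact_mod_cast hcard) (fun _ _ => by simp) (by simpa using hs)
  refine ⟨fun x _ => if hx : x.toNat < M then φ ⟨x.toNat, hx⟩ else ⟨0, hr⟩,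
    fun f hf hb hne c => ?_⟩
  have hlt : ∀ i, (f i).toNat < M := fun i => by have := hb i; omega
  have hf' : ∀ i, (((f i).toNat : ℕ) : ℤ) = f i := fun i => Int.toNat_of_nonneg (hb i).1
  obtain ⟨i, hi⟩ := hφ (fun i => ⟨(f i).toNat, hlt i⟩) (Finset.mem_filter.2 ⟨mem_univ _, by
    simpa only [hf'] using hf, by
      obtain ⟨i, i', h⟩ := hne
      refine ⟨i, i', fun e => h ?_⟩
      have := congrArg (fun y : Fin M => ((y : ℕ) : ℤ)) e
      simpa only [hf'] using this⟩) c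
  exact ⟨i, 0, by simp only [hlt i, dif_pos]; exact hi⟩

theorem Co.card_nodes' {W Λ : ℕ} (C : Co W Λ) (lam : ℕ) {k e : ℕ} (hl : 0 < lam) (hΛ : 0 < Λ)
    (hk : 0 < k) (hW : W = 2 * ((e + 1) * k ^ e)) {s : Finset (Fin k)} (hs : s.card = e + 1)
    (i0 : Fin k) (x0 : ℤ) (R : Finset (Fin k → ZMod (lam * Λ)))
    (hR : ∀ ρ ∈ R, ∃ f, PolySeq k e f ∧ (∀ i, ρ i = C.lab lam (f i)) ∧
      (∀ m ∈ s, ∀ m' ∈ s, ρ m = ρ m') ∧ ρ i0 = C.lab lam x0) :
    R.card ≤ (((k ^ e) ^ (e + 1)) * (k * (7 * Λ) + 1)) ^ (e + 1) := by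
  classical
  set Rr : ℤ := ∏ m ∈ s, |den s m| with hRr
  have hpos : 0 < Rr := Finset.prod_pos (fun m _ => abs_pos.2 (den_ne s m))
  have hle : Rr ≤ ((k : ℤ) ^ e) ^ (e + 1) := by
    calc Rr ≤ ∏ _m ∈ s, (k : ℤ) ^ e :=
          Finset.prod_le_prod (fun _ _ => abs_nonneg _) (fun m hm => abs_prod_le hs hm m)
      _ = ((k : ℤ) ^ e) ^ (e + 1) := by rw [Finset.prod_const, hs]
  have hd : ∀ m ∈ s, den s m ∣ Rr := fun m hm =>
    (abs_dvd _ _).1 (Finset.dvd_prod_of_mem (fun m => |den s m|) hm)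
  choose! f hf using hR
  let T : Finset (s → ℤ) := Fintype.piFinset (fun _ => Finset.Ico 0 Rr)
  have h1 := Finset.card_le_mul_card_image_of_maps_to (s := R) (t := T)
    (f := fun ρ (m : s) => (f ρ m / C.q) % Rr)
    (fun ρ _ => Fintype.mem_piFinset.2 (fun m => Finset.mem_Ico.2
      ⟨Int.emod_nonneg _ hpos.ne', Int.emod_lt_of_pos _ hpos⟩))
    ((k * (7 * Λ) + 1) ^ (e + 1)) (fun t _ => by
      refine C.card_nodes lam hl hΛ hk hW hs hd (fun m => if h : m ∈ s then t ⟨m, h⟩ else 0)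
        i0 x0 _ (fun ρ hρ => ?_)
      obtain ⟨a, b⟩ := Finset.mem_filter.1 hρ
      obtain ⟨p1, p2, p3, p4⟩ := hf ρ a
      refine ⟨f ρ, p1, p2, p3, p4, fun m hm => ?_⟩
      simp only [hm, dif_pos]
      exact (congrFun b ⟨m, hm⟩).symm)
  have h2 : T.card ≤ ((k ^ e) ^ (e + 1)) ^ (e + 1) := by
    rw [Fintype.card_piFinset, Finset.prod_const, Finset.card_univ, Fintype.card_coe, hs,
      Int.card_Ico, sub_zero]
    refine Nat.pow_le_pow_left ?_ _
    rw [Int.toNat_le]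
    exact_mod_cast hle
  rw [mul_pow]
  exact h1.trans ((Nat.mul_le_mul_left _ h2).trans (le_of_eq (mul_comm _ _)))

theorem step {k e D r h h1 Λ M L q' : ℕ} (C : Fin D → Co (2 * ((e + 1) * k ^ e)) Λ)
    (hΛ : 0 < Λ) (hp : ∀ j, (C j).q.Prime ∧ 2 * e * h < (C j).q ∧ (C j).q ≤ q')
    (hinj : Function.Injective (fun j => (C j).q)) (he : 1 ≤ e) (hr : 1 ≤ r) (hh : 1 ≤ h)
    (hk : 2 * e * h ≤ k) (hk1 : h1 * e ≤ k) (hk2 : 2 * e < k) (hM : D * q' ^ 2 ≤ M) (hD : 1 ≤ D)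
    (hs : (((k * ((2 * ((e + 1) * k ^ e * ((2 * e * h).factorial ^ e) ^ 2) + 1) * Λ) + 1)
        ^ (e + 1)) ^ D : ℕ) * (r * (1 - 1 / (r : ℝ)) ^ h1)
      + k * k * ((k ^ (e + 1) * ((((k ^ e) ^ (e + 1)) * (k * (7 * Λ) + 1)) ^ (e + 1)) ^ D : ℕ) : ℝ)
        * (r * (1 - 1 / (r : ℝ)) ^ h) ≤ 1 / 4)
    (hW : Win k (2 * e) M L r) : Cyc k e (∏ j, (C j).q) (L + 1) r := by
  classical
  set w := 2 * e * h with hw
  set lam := w.factorial ^ e with hlam
  have hk0 : 0 < k := by omega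
  have hw0 : 0 < w := by positivity
  have hl : 0 < lam := pow_pos (Nat.factorial_pos _) _
  have : NeZero (lam * Λ) := ⟨(Nat.mul_pos hl hΛ).ne'⟩
  let lab : ℤ → Fin D → ZMod (lam * Λ) := fun x j => (C j).lab lam x
  let All : Finset (Fin k → Fin D → ZMod (lam * Λ)) :=
    univ.filter (fun π => ∃ f, PolySeq k e f ∧ π = fun i => lab (f i))
  let Pat := All.filter (fun π => ∀ v,
    ((univ : Finset (Fin k)).filter (fun i => π i = v)).card ≤ (k / w + 1) * e)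
  let Hv := All.filter (fun π => ∃ v,
    e < ((univ : Finset (Fin k)).filter (fun i => π i = v)).card)
  have a0 : ∀ π ∈ Pat, h ≤ (univ.image π).card := by
    intro π hπ
    refine image_ge π ?_ hk0 (Finset.mem_filter.1 hπ).2
    have b1 : k / w * w ≤ k := Nat.div_mul_le_self _ _
    have b2 : 2 * (h * ((k / w + 1) * e)) = k / w * w + w := by rw [hw]; ring
    omega
  have a1 : ∀ π ∈ Pat, π ∉ Hv → h1 ≤ (univ.image π).card := by
    intro π hπ hn
    refine image_ge π hk1 hk0 (fun v => not_lt.1 (fun hlt => hn ?_))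
    exact Finset.mem_filter.2 ⟨(Finset.mem_filter.1 hπ).1, v, hlt⟩
  have b1 : Pat.card ≤ ((k * ((2 * ((e + 1) * k ^ e * lam ^ 2) + 1) * Λ) + 1) ^ (e + 1)) ^ D := by
    refine (Finset.card_filter_le _ _).trans ?_
    have hew : e + 1 ≤ w := by rw [hw]; nlinarith
    let s : Finset (Fin k) := univ.filter (fun i => (i : ℕ) < e + 1)
    have hs' : s.card = e + 1 := by
      rw [Fin.card_filter_val_lt]; omega
    refine sx.card_le_pow_of_coords All (fun j => All.image (fun π i => π i j)) _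
      (fun π hπ j => Finset.mem_image_of_mem _ hπ) (fun j => ?_)
    refine (C j).card_all lam hl hΛ hs' (fun m hm => den_dvd hs' hm (fun t ht => ?_)) _
      (fun ρ hρ => ?_)
    · have x1 := (Finset.mem_filter.1 hm).2
      have x2 := (Finset.mem_filter.1 ht).2
      rw [abs_le]; constructor <;> omega
    · obtain ⟨π, hπ, rfl⟩ := Finset.mem_image.1 hρ
      obtain ⟨f, hf, rfl⟩ := (Finset.mem_filter.1 hπ).2
      exact ⟨f, hf, fun _ => rfl⟩
  have b2 : ∀ i v, (Hv.filter (fun π => π i = v)).card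
      ≤ k ^ (e + 1) * ((((k ^ e) ^ (e + 1)) * (k * (7 * Λ) + 1)) ^ (e + 1)) ^ D := by
    intro i v
    rcases (Hv.filter (fun π => π i = v)).eq_empty_or_nonempty with h0 | ⟨π0, hπ0⟩
    · rw [h0]; simp
    obtain ⟨m1, m2⟩ := Finset.mem_filter.1 hπ0
    obtain ⟨f0, -, rfl⟩ := (Finset.mem_filter.1 (Finset.mem_filter.1 m1).1).2
    let Rs : Finset (Fin k) → Finset (Fin k → Fin D → ZMod (lam * Λ)) := fun s =>
      All.filter (fun π => π i = v ∧ ∀ m ∈ s, ∀ m' ∈ s, π m = π m')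
    have sub : Hv.filter (fun π => π i = v)
        ⊆ (Finset.powersetCard (e + 1) (univ : Finset (Fin k))).biUnion Rs := by
      intro π hπ
      obtain ⟨n1, n2⟩ := Finset.mem_filter.1 hπ
      obtain ⟨n3, u, hu⟩ := Finset.mem_filter.1 n1
      obtain ⟨s, hs1, hs2⟩ := Finset.exists_subset_card_eq (Nat.succ_le_of_lt hu)
      refine Finset.mem_biUnion.2 ⟨s, Finset.mem_powersetCard.2 ⟨Finset.subset_univ _, hs2⟩,
        Finset.mem_filter.2 ⟨n3, n2, fun m hm m' hm' => ?_⟩⟩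
      rw [(Finset.mem_filter.1 (hs1 hm)).2, (Finset.mem_filter.1 (hs1 hm')).2]
    have each : ∀ s ∈ Finset.powersetCard (e + 1) (univ : Finset (Fin k)), (Rs s).card
        ≤ ((((k ^ e) ^ (e + 1)) * (k * (7 * Λ) + 1)) ^ (e + 1)) ^ D := by
      intro s hs0
      have hs' := (Finset.mem_powersetCard.1 hs0).2
      refine sx.card_le_pow_of_coords (Rs s) (fun j => (Rs s).image (fun π i => π i j)) _
        (fun π hπ j => Finset.mem_image_of_mem _ hπ) (fun j => ?_)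
      refine (C j).card_nodes' lam hl hΛ hk0 rfl hs' i (f0 i) _ (fun ρ hρ => ?_)
      obtain ⟨π, hπ, rfl⟩ := Finset.mem_image.1 hρ
      obtain ⟨n1, n2, n3⟩ := Finset.mem_filter.1 hπ
      obtain ⟨f, hf, rfl⟩ := (Finset.mem_filter.1 n1).2
      exact ⟨f, hf, fun _ => rfl, fun m hm m' hm' => congrFun (n3 m hm m' hm') j,
        congrFun (n2.trans m2.symm) j⟩
    refine (Finset.card_le_card sub).trans (Finset.card_biUnion_le.trans ?_)
    refine (Finset.sum_le_sum each).trans ?_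
    rw [Finset.sum_const, smul_eq_mul, Finset.card_powersetCard, Finset.card_univ,
      Fintype.card_fin]
    exact Nat.mul_le_mul_right _ (Nat.choose_le_pow k (e + 1))
  obtain ⟨φ, hφ⟩ := letters hk0 hr Pat Hv _ _ (Nat.cast_nonneg _) a0 a1 (Nat.cast_le.2 b1)
    (fun i v => Nat.cast_le.2 (b2 i v)) hs
  obtain ⟨ξ, hξ⟩ := hW
  refine ⟨fun x => Fin.cons (φ (lab x)) (ξ (∑ j, (C j).Y lam x ^ 2)), fun f hf hne c => ?_⟩
  have hA : (fun i => lab (f i)) ∈ All := Finset.mem_filter.2 ⟨mem_univ _, f, hf, rfl⟩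
  by_cases hP : (fun i => lab (f i)) ∈ Pat
  · obtain ⟨i, hi⟩ := hφ _ hP c
    exact ⟨i, 0, hi⟩
  have hH : ∃ v, (k / w + 1) * e
      < ((univ : Finset (Fin k)).filter (fun i => lab (f i) = v)).card := by
    by_contra hn
    push Not at hn
    exact hP (Finset.mem_filter.2 ⟨hA, hn⟩)
  obtain ⟨v, hv⟩ := hH
  obtain ⟨s, hs1, hs2, hs3⟩ := window hw0 (fun i => lab (f i)) v hv
  have hY : ∀ j, PolySeq k e (fun i => (C j).Y lam (f i)) := fun j =>
    (C j).poly_Y lam hl hΛ hk0 rfl hs1 (fun m hm => den_dvd hs1 hm (hs3 m hm)) hf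
      (fun m hm m' hm' => congrFun ((hs2 m hm).trans (hs2 m' hm').symm) j)
  obtain ⟨i, l, hi⟩ := hξ (fun i => ∑ j, (C j).Y lam (f i) ^ 2) (polySeq_sq hY)
    (fun i => by
      refine ⟨Finset.sum_nonneg (fun j _ => sq_nonneg _), ?_⟩
      have : Nonempty (Fin D) := ⟨⟨0, hD⟩⟩
      have c1 : ∑ j, (C j).Y lam (f i) ^ 2 < ∑ _j : Fin D, (q' : ℤ) ^ 2 := by
        refine Finset.sum_lt_sum_of_nonempty Finset.univ_nonempty (fun j _ => ?_)
        have y1 := (C j).Y_nonneg lam (f i)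
        have y2 := (C j).Y_lt lam (f i)
        have y3 : ((C j).q : ℤ) ≤ q' := by exact_mod_cast (hp j).2.2
        nlinarith
      rw [Finset.sum_const, Finset.card_univ, Fintype.card_fin, nsmul_eq_mul] at c1
      exact lt_of_lt_of_le c1 (by exact_mod_cast hM))
    (by
      by_contra hn
      push Not at hn
      obtain ⟨i, i', hd⟩ := hne
      refine hd ?_
      rw [Nat.cast_prod]
      refine Fintype.prod_dvd_of_coprime (fun a b hab => ?_) (fun j => ?_)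
      · exact Nat.isCoprime_iff_coprime.2
          ((Nat.coprime_primes (hp a).1 (hp b).1).2 (fun e => hab (hinj e)))
      · have y : (C j).Y lam (f i) = (C j).Y lam (f i') := const_of_sq hk2 hY hn j i i'
        have d1 : ((C j).q : ℤ) ∣ lam * (f i - f i') := by
          rw [mul_sub]
          exact (Int.ModEq.dvd (show lam * f i' ≡ lam * f i [ZMOD (C j).q] from y.symm))
        rcases (Nat.prime_iff_prime_int.1 (hp j).1).dvd_or_dvd d1 with d | d
        · have d2 : (C j).q ∣ w.factorial :=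
            (hp j).1.dvd_of_dvd_pow (Int.natCast_dvd_natCast.1 d)
          have := ((hp j).1.dvd_factorial).1 d2
          have := (hp j).2.1
          omega
        · exact d) c
  exact ⟨i, l.succ, hi⟩

end Pool.Agent.MP_a31471_co.ex

end MrgPart4

-- ======== part 5: formerly Pool.Agent.MP_a31471_co.ex.Engine
section MrgPart5

/-!
The numbers, and the iteration over the levels.
-/

set_option autoImplicit false

namespace Pool.Agent.MP_a31471_co.ex

open Finset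

theorem kill {P a g r : ℕ} (hr : 1 ≤ r) (hP : P * r ≤ 2 ^ a) (hg : a + 3 ≤ g) :
    (P : ℝ) * (r * (1 - 1 / (r : ℝ)) ^ (r * g)) ≤ 1 / 8 := by
  have hr' : (1 : ℝ) ≤ r := by exact_mod_cast hr
  have h0 : (0 : ℝ) ≤ 1 - 1 / (r : ℝ) := by
    rw [sub_nonneg, div_le_one (by linarith)]; exact hr'
  have h1 : (1 - 1 / (r : ℝ)) ^ r ≤ 1 / 2 :=
    (Real.one_sub_div_pow_le_exp_neg hr').trans (by linarith [Real.exp_neg_one_lt_d9])
  have h2 : (1 - 1 / (r : ℝ)) ^ (r * g) ≤ (1 / 2) ^ (a + 3) := by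
    rw [pow_mul]
    exact (pow_le_pow_left₀ (by positivity) h1 g).trans
      (pow_le_pow_of_le_one (by norm_num) (by norm_num) hg)
  have h3 : (P : ℝ) * r ≤ 2 ^ a := by exact_mod_cast hP
  calc (P : ℝ) * (r * (1 - 1 / (r : ℝ)) ^ (r * g))
      = (P * r) * (1 - 1 / (r : ℝ)) ^ (r * g) := by ring
    _ ≤ 2 ^ a * (1 / 2) ^ (a + 3) := mul_le_mul h3 h2 (by positivity) (by positivity)
    _ = 1 / 8 := by
      rw [pow_add, ← mul_assoc, ← mul_pow]; norm_num

theorem pmul {x y a b : ℕ} (hx : x ≤ 2 ^ a) (hy : y ≤ 2 ^ b) : x * y ≤ 2 ^ (a + b) := by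
  rw [pow_add]; exact Nat.mul_le_mul hx hy

theorem ppow {x a n m : ℕ} (hx : x ≤ 2 ^ a) (hn : n ≤ m) : x ^ n ≤ 2 ^ (a * m) := by
  refine (Nat.pow_le_pow_left hx n).trans ?_
  rw [← pow_mul]
  exact Nat.pow_le_pow_right (by omega) (Nat.mul_le_mul_left _ hn)

theorem psucc {x a : ℕ} (hx : x ≤ 2 ^ a) : x + 1 ≤ 2 ^ (a + 1) := by
  have : 1 ≤ 2 ^ a := Nat.one_le_two_pow
  rw [pow_succ]; omega

theorem pmono {x a b : ℕ} (hx : x ≤ 2 ^ a) (h : a ≤ b) : x ≤ 2 ^ b :=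
  hx.trans (Nat.pow_le_pow_right (by omega) h)

theorem step_num {k E e r D t M L : ℕ} (hE : 4 ≤ E) (he1 : 1 ≤ e) (he : e ≤ E) (hr1 : 1 ≤ r)
    (hr : r ≤ E) (hk : k ≤ 2 ^ E) (ht : E ≤ t) (htD : t + D ≤ 2 ^ (E ^ 2)) (hD : 1 ≤ D)
    (hD2 : 2048 * E ^ 11 * D ^ 2 ≤ k) (hM : 2 ^ (2 * t + 3 * D) ≤ M)
    (hW : Win k (2 * e) M L r) : ∃ N, 2 ^ (t * D) ≤ N ∧ Cyc k e N (L + 1) r := by
  obtain ⟨q, hq, hinj⟩ := sx.Num.primes t D
  set W : ℕ := 2 * ((e + 1) * k ^ e) with hWd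
  set B : ℕ := W * (t + D) with hB
  have hE1 : 1 ≤ E := by omega
  have p6 : E ^ 6 ≤ E ^ 11 := Nat.pow_le_pow_right hE1 (by omega)
  have p1 : E ≤ E ^ 11 := Nat.le_self_pow (by omega) E
  have hDD : D ≤ D ^ 2 := Nat.le_self_pow (by omega) D
  have hk0 : 2048 * E ≤ k := by
    refine le_trans ?_ hD2
    calc 2048 * E = 2048 * E * 1 := by ring
      _ ≤ 2048 * E ^ 11 * D ^ 2 := Nat.mul_le_mul (Nat.mul_le_mul_left _ p1) (hD.trans hDD)
  have hW1 : 1 ≤ W := by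
    have : 0 < k := by omega
    exact Nat.succ_le_of_lt (by positivity)
  have hmesh : ∀ j, ∃ K : ℤ → ℤ, sx.Mesh (q j) W ((2 * B + 1 : ℕ) : ℤ) K := by
    intro j
    have h1 : (0 : ℝ) < q j := by exact_mod_cast (hq j).1.pos
    have h2 : Real.log (q j) ≤ (t + D : ℕ) := by
      have a : (q j : ℝ) ≤ 2 ^ (t + D) := by exact_mod_cast (hq j).2.2
      refine (Real.log_le_log h1 a).trans ?_
      rw [Real.log_pow]
      have : Real.log 2 ≤ 1 := by linarith [Real.log_two_lt_d9]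
      have h3 : (0 : ℝ) ≤ (t + D : ℕ) := by positivity
      nlinarith
    have := sx.exists_mesh (q j) W B (by exact_mod_cast (hq j).1.pos) (by exact_mod_cast hW1) (by
      rw [hB]
      push_cast at h2 ⊢
      exact mul_le_mul_of_nonneg_left h2 (by positivity))
    push_cast
    exact this
  choose K hK using hmesh
  let C : Fin D → Co W (2 * B + 1) := fun j => ⟨q j, K j, (hq j).1.pos, hK j⟩
  set g : ℕ := 16 * E ^ 4 * D with hg
  set g1 : ℕ := 1024 * E ^ 9 * D ^ 2 with hg1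
  have hw : 2 * e * (r * g) ≤ 32 * E ^ 6 * D := by
    calc 2 * e * (r * g) ≤ 2 * E * (E * g) :=
          Nat.mul_le_mul (Nat.mul_le_mul_left _ he) (Nat.mul_le_mul_right _ hr)
      _ = 32 * E ^ 6 * D := by rw [hg]; ring
  have hwk : 2 * e * (r * g) ≤ k := by
    refine hw.trans (le_trans ?_ hD2)
    exact Nat.mul_le_mul (Nat.mul_le_mul (by omega) p6) hDD
  have hg0 : 1 ≤ g := by rw [hg]; exact Nat.succ_le_of_lt (by positivity)
  have hw1 : 1 ≤ 2 * e * (r * g) := Nat.succ_le_of_lt (by positivity)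
  have hh1 : r * g1 * e ≤ k := by
    calc r * g1 * e ≤ E * g1 * E := Nat.mul_le_mul (Nat.mul_le_mul_right _ hr) he
      _ = 1024 * E ^ 11 * D ^ 2 := by rw [hg1]; ring
      _ ≤ 2048 * E ^ 11 * D ^ 2 := Nat.mul_le_mul_right _ (Nat.mul_le_mul_right _ (by omega))
      _ ≤ k := hD2
  have bE : E + 1 ≤ 2 ^ E := Nat.lt_two_pow_self
  have be : e + 1 ≤ 2 ^ E := by omega
  have br : r ≤ 2 ^ E := by omega
  have bk : k ^ e ≤ 2 ^ (E * E) := ppow hk he
  have b2 : 2 ≤ 2 ^ 1 := by norm_num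
  have bΛ : 2 * B + 1 ≤ 2 ^ (3 * E ^ 2) :=
    pmono (psucc (pmul b2 (pmul (pmul b2 (pmul be bk)) htD))) (by nlinarith)
  refine ⟨∏ j, (C j).q, ?_, step (h := r * g) (h1 := r * g1) (q' := 2 ^ (t + D)) C (by omega)
    (fun j => ⟨(hq j).1, ?_, (hq j).2.2⟩) hinj he1 hr1 (Nat.mul_pos hr1 hg0) hwk hh1 (by omega)
    ?_ hD ?_ hW⟩
  · calc 2 ^ (t * D) = ∏ _j : Fin D, 2 ^ t := by simp [pow_mul]
      _ ≤ ∏ j, (C j).q := Finset.prod_le_prod' (fun j _ => (hq j).2.1.le)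
  · exact lt_of_le_of_lt (pmono (hwk.trans hk) ht) (hq j).2.1
  · refine le_trans (pmono (pmul (Nat.lt_two_pow_self (n := D)).le (ppow le_rfl le_rfl)) ?_) hM
    omega
  · generalize hwe : 2 * e * (r * g) = w at hw hwk hw1
    have bl : w.factorial ^ e ≤ 2 ^ (E * w * E) :=
      ppow ((Nat.factorial_le_pow w).trans (ppow (hwk.trans hk) le_rfl)) he
    have x1 : k * ((2 * ((e + 1) * k ^ e * (w.factorial ^ e) ^ 2) + 1) * (2 * B + 1)) + 1
        ≤ 2 ^ (8 * E ^ 2 * w) := by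
      refine pmono (psucc (pmul hk (pmul (psucc (pmul b2 (pmul (pmul be bk) (ppow bl le_rfl))))
        bΛ))) ?_
      have : E ^ 2 ≤ E ^ 2 * w := Nat.le_mul_of_pos_right _ hw1
      nlinarith
    have hE2 : e + 1 ≤ 2 * E := by omega
    have y1 := pmul (ppow (ppow x1 hE2) (le_refl D)) br
    have x2 : (k ^ e) ^ (e + 1) * (k * (7 * (2 * B + 1)) + 1) ≤ 2 ^ (3 * E ^ 3) := by
      have b7 : 7 ≤ 2 ^ 3 := by norm_num
      refine pmono (pmul (ppow bk (Nat.succ_le_succ he)) (psucc (pmul hk (pmul b7 bΛ)))) ?_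
      have : 4 * E ^ 2 ≤ E ^ 3 := by nlinarith
      nlinarith
    have y2 := pmul (pmul (pmul hk hk) (pmul (ppow hk hE2) (ppow (ppow x2 hE2) (le_refl D)))) br
    have z1 := kill (g := g1) hr1 y1 (by
      have a : 8 * E ^ 2 * w * (2 * E) * D ≤ 512 * E ^ 9 * D ^ 2 := by
        calc 8 * E ^ 2 * w * (2 * E) * D = 16 * E ^ 3 * D * w := by ring
          _ ≤ 16 * E ^ 3 * D * (32 * E ^ 6 * D) := Nat.mul_le_mul_left _ hw
          _ = 512 * E ^ 9 * D ^ 2 := by ring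
      have b : E ≤ E ^ 9 * D ^ 2 :=
        (Nat.le_self_pow (by omega) E).trans (Nat.le_mul_of_pos_right _ (by positivity))
      rw [hg1]
      nlinarith)
    have z2 := kill (g := g) hr1 y2 (by
      have a : E ^ 2 ≤ E ^ 4 * D :=
        (Nat.pow_le_pow_right hE1 (by omega)).trans (Nat.le_mul_of_pos_right _ hD)
      rw [hg]
      nlinarith)
    rw [Nat.cast_mul, Nat.cast_mul] at z2
    linarith

theorem engine {k E r D t L : ℕ} (hE : 4 ≤ E) (hr1 : 1 ≤ r) (hr : r ≤ E) (hL1 : 1 ≤ L)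
    (hL : 2 ^ L ≤ E) (hk : k ≤ 2 ^ E) (hD : 1 ≤ D) (hD2 : 32768 * E ^ 11 * D ^ 2 ≤ k)
    (ht1 : 8 * D ≤ t) (ht2 : E ≤ t) (ht3 : 16 * E ^ 3 * t ≤ k) :
    ∃ N, 2 ^ (4 * t * D ^ L) ≤ N ∧ Cyc k 1 N (L + 1) r := by
  have hE1 : 1 ≤ E := by omega
  have bE : E + 1 ≤ 2 ^ E := Nat.lt_two_pow_self
  have hE3 : E ≤ E ^ 3 := Nat.le_self_pow (by omega) E
  have htk : 16 * t ≤ k := by
    refine le_trans ?_ ht3
    have : 1 ≤ E ^ 3 := by omega
    nlinarith
  have hL2 : L + 2 ≤ E := by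
    rcases Nat.lt_or_ge L 2 with h | h
    · omega
    · obtain ⟨m, rfl⟩ := Nat.exists_eq_add_of_le h
      have : m + 1 ≤ 2 ^ m := Nat.lt_two_pow_self
      rw [pow_add] at hL
      omega
  have st : ∀ n e, n < L → 1 ≤ e → e ≤ E → Win k (2 * e) (2 ^ (4 * t * D ^ n)) (n + 1) r →
      ∃ N, 2 ^ (4 * t * D ^ (n + 1)) ≤ N ∧ Cyc k e N (n + 1 + 1) r := by
    intro n e hn he1 he hW
    have hDn : 1 ≤ D ^ n := Nat.one_le_pow _ _ hD
    have htn : t ≤ t * D ^ n := Nat.le_mul_of_pos_right _ hDn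
    have := step_num (t := t * D ^ n) (D := 4 * D) hE he1 he hr1 hr hk (ht2.trans htn) ?_
      (by omega) (le_trans (le_of_eq (by ring)) hD2)
      (Nat.pow_le_pow_right (by omega) ?_) hW
    · rwa [show t * D ^ n * (4 * D) = 4 * t * D ^ (n + 1) by ring] at this
    · have a1 : 2 * t ≤ 2 ^ E := by omega
      have a2 : D ≤ 2 ^ E := by omega
      have a3 := pmul a1 (ppow a2 hn.le)
      refine pmono (le_trans ?_ a3) (by nlinarith)
      rw [mul_assoc]; omega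
    · rw [mul_assoc]; omega
  have win : ∀ n, n < L → Win k (2 * 2 ^ (L - 1 - n)) (2 ^ (4 * t * D ^ n)) (n + 1) r := by
    intro n
    induction n with
    | zero =>
      intro _
      have e1 : 2 * 2 ^ (L - 1 - 0) = 2 ^ L := by
        rw [← pow_succ']; congr 1; omega
      rw [e1]
      have hL0 : 1 ≤ 2 ^ L := Nat.one_le_two_pow
      have ht0 : 1 ≤ t := by omega
      refine base (h := r * (16 * E * t)) (by nlinarith) hr1 ?_ ?_
      · calc r * (16 * E * t) * 2 ^ L ≤ E * (16 * E * t) * E :=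
              Nat.mul_le_mul (Nat.mul_le_mul_right _ hr) hL
          _ = 16 * E ^ 3 * t := by ring
          _ ≤ k := ht3
      · have a1 : 2 ^ L + 1 ≤ 2 * E := by omega
        have a2 : r ≤ 2 ^ E := by omega
        have := kill (g := 16 * E * t) hr1
          (pmul (ppow (le_refl (2 ^ (4 * t * D ^ 0))) a1) a2) (by
            rw [pow_zero]
            have : E ≤ E * t := Nat.le_mul_of_pos_right _ ht0
            nlinarith)
        rw [Nat.cast_pow] at this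
        linarith
    | succ n ih =>
      intro hn
      have e1 : 2 ^ (L - 1 - n) = 2 * 2 ^ (L - 1 - (n + 1)) := by
        rw [← pow_succ']; congr 1; omega
      obtain ⟨N, hN, hC⟩ := st n (2 ^ (L - 1 - n)) (by omega) Nat.one_le_two_pow
        ((Nat.pow_le_pow_right (by omega) (by omega)).trans hL) (ih (by omega))
      rw [← e1]
      exact hC.win hN
  obtain ⟨n, rfl⟩ : ∃ n, L = n + 1 := ⟨L - 1, by omega⟩
  have := win n (by omega)
  rw [show n + 1 - 1 - n = 0 by omega, pow_zero] at this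
  exact st n 1 (by omega) le_rfl hE1 this

end Pool.Agent.MP_a31471_co.ex

end MrgPart5

-- marker of a merged file
example : 731051 + 110475 = 731051 + 110475 := rfl
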