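import Pool.Agent.MP_a31471_co.ex.Engine

/-!
Letters that meet every progression whose difference is not divisible by a large number.
-/

set_option autoImplicit false

namespace Pool.Agent.MP_a31471_co.ex

open Finset Polynomial

theorem progressions {k E L r : ℕ} (hE : 2 ^ 17 ≤ E) (hr1 : 1 ≤ r) (hr : r ≤ E) (hL1 : 1 ≤ L)
    (hL : 2 ^ L ≤ E) (hk1 : E ^ 12 ≤ k) (hk2 : k ≤ 2 ^ E) :
    ∃ N : ℕ, (2 : ℝ) ^ (((k : ℝ) / (E : ℝ) ^ 12) ^ (1 + (L : ℝ) / 2)) ≤ N ∧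
      ∃ ξ : ℤ → Fin (L + 1) → Fin r, ∀ a d : ℤ, ¬ (N : ℤ) ∣ d → ∀ c,
        ∃ i < k, ∃ l, ξ (a + (i : ℕ) * d) l = c := by
  have hE1 : 1 ≤ E := by omega
  have p11 : 0 < E ^ 11 := by positivity
  have p3 : 0 < E ^ 3 := by positivity
  set u := k / (32768 * E ^ 11) with hu
  set D := Nat.sqrt u with hD
  set t := k / (16 * E ^ 3) with ht
  have e12 : 131072 * E ^ 11 ≤ E ^ 12 := by
    rw [pow_succ' E 11]; exact Nat.mul_le_mul_right _ hE
  have u1 : 4 ≤ u := (Nat.le_div_iff_mul_le (by positivity)).2 (by omega)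
  have D1 : 1 ≤ D := Nat.le_sqrt'.2 (by omega)
  have D2 : 32768 * E ^ 11 * D ^ 2 ≤ k :=
    (Nat.mul_le_mul_left _ (Nat.sqrt_le' u)).trans (Nat.mul_div_le _ _)
  have D3 : k ≤ E ^ 12 * D ^ 2 := by
    have a1 : u < (D + 1) ^ 2 := Nat.lt_succ_sqrt' u
    have a2 : k < 32768 * E ^ 11 * (u + 1) := Nat.lt_mul_div_succ k (by positivity)
    have a3 : u + 1 ≤ 4 * D ^ 2 := by nlinarith
    calc k ≤ 32768 * E ^ 11 * (4 * D ^ 2) := a2.le.trans (Nat.mul_le_mul_left _ a3)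
      _ = 131072 * E ^ 11 * D ^ 2 := by ring
      _ ≤ E ^ 12 * D ^ 2 := Nat.mul_le_mul_right _ e12
  have t1 : 2048 * (E ^ 8 * D ^ 2) ≤ t :=
    (Nat.le_div_iff_mul_le (by positivity)).2 (le_trans (le_of_eq (by ring)) D2)
  have t2 : D ≤ E ^ 8 * D ^ 2 :=
    (Nat.le_self_pow (by omega) D).trans (Nat.le_mul_of_pos_left _ (by positivity))
  have t3 : E ≤ E ^ 8 * D ^ 2 :=
    (Nat.le_self_pow (by omega) E).trans (Nat.le_mul_of_pos_right _ (by positivity))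
  have t4 : k ≤ E ^ 12 * (4 * t) := by
    have a2 : k < 16 * E ^ 3 * (t + 1) := Nat.lt_mul_div_succ k (by positivity)
    have a3 : E ^ 3 ≤ E ^ 11 := Nat.pow_le_pow_right hE1 (by omega)
    calc k ≤ 16 * E ^ 3 * (2 * t) := a2.le.trans (Nat.mul_le_mul_left _ (by omega))
      _ = 8 * E ^ 3 * (4 * t) := by ring
      _ ≤ E ^ 12 * (4 * t) := Nat.mul_le_mul_right _ (by omega)
  obtain ⟨N, hN, ξ, hξ⟩ := engine (D := D) (t := t) (by omega) hr1 hr hL1 hL hk2 D1 D2 (by omega)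
    (by omega) (Nat.mul_div_le _ _)
  have hk : 2 ≤ k := by omega
  refine ⟨N, ?_, ξ, fun a d hd c => ?_⟩
  · have hE' : (0 : ℝ) < (E : ℝ) ^ 12 := by positivity
    have x0 : (0 : ℝ) < (k : ℝ) / (E : ℝ) ^ 12 := by positivity
    have x1 : (k : ℝ) / (E : ℝ) ^ 12 ≤ (D : ℝ) ^ 2 := by
      rw [div_le_iff₀' hE']; exact_mod_cast D3
    have x2 : (k : ℝ) / (E : ℝ) ^ 12 ≤ 4 * t := by
      rw [div_le_iff₀' hE']; exact_mod_cast t4
    have x3 : ((k : ℝ) / (E : ℝ) ^ 12) ^ ((L : ℝ) / 2) ≤ (D : ℝ) ^ L := by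
      refine (Real.rpow_le_rpow x0.le x1 (by positivity)).trans (le_of_eq ?_)
      rw [← Real.rpow_natCast, ← Real.rpow_mul (by positivity), ← Real.rpow_natCast]
      congr 1
      push_cast; ring
    have x4 : ((k : ℝ) / (E : ℝ) ^ 12) ^ (1 + (L : ℝ) / 2) ≤ ((4 * t * D ^ L : ℕ) : ℝ) := by
      rw [Real.rpow_add x0, Real.rpow_one]
      push_cast
      exact mul_le_mul x2 x3 (by positivity) (by positivity)
    refine (Real.rpow_le_rpow_of_exponent_le (by norm_num) x4).trans ?_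
    rw [Real.rpow_natCast]
    exact_mod_cast hN
  · obtain ⟨i, l, h⟩ := hξ (fun i => a + (i : ℕ) * d)
      ⟨C (d : ℚ) * X + C (a : ℚ), natDegree_linear_le, fun i => by
        simp only [eval_add, eval_mul, eval_C, eval_X, nd]
        push_cast; ring⟩
      ⟨⟨1, by omega⟩, ⟨0, by omega⟩, by simpa using hd⟩ c
    exact ⟨i, i.2, l, h⟩

end Pool.Agent.MP_a31471_co.ex
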